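import Pool.Agent.Q235.SR.Psh

/-!
# Cutting off a primitive
-/

set_option autoImplicit false

open Set Filter Topology MeasureTheory
open scoped Manifold ContDiff Pointwise

noncomputable section

namespace Pool.Agent.Q235.SZ

open Pool.Agent.Y501.SY Pool.Agent.Y515.SY

variable {d : ℕ}

theorem ext1_apply {β : E d → Al d 1} {p : E d} (hβ : DifferentiableAt ℝ β p) (u v : E d) :
    extDeriv β p ![u, v] = fderiv ℝ β p u ![v] - fderiv ℝ β p v ![u] := by
  rw [extDeriv_apply hβ, Fin.sum_univ_two]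
  have h2 : ∀ (w : Fin 1 → E d) (w' : E d), fderiv ℝ (fun p => β p w) p w' = fderiv ℝ β p w' w := by
    intro w w'
    have h3 : HasFDerivAt (fun p => β p w)
        ((ContinuousAlternatingMap.apply ℝ (E d) ℝ w).comp (fderiv ℝ β p)) p :=
      (ContinuousAlternatingMap.apply ℝ (E d) ℝ w).hasFDerivAt.comp p hβ.hasFDerivAt
    rw [h3.fderiv]
    rfl
  rw [h2, h2]
  have e1 : (0 : Fin 2).removeNth ![u, v] = ![v] := by
    ext i; fin_cases i; rfl
  have e2 : (1 : Fin 2).removeNth ![u, v] = ![u] := by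
    ext i; fin_cases i; rfl
  rw [e1, e2]
  simp only [Fin.val_zero, pow_zero, one_smul, Fin.val_one, pow_one]
  simp [sub_eq_add_neg]

theorem ext_cut {χ : E d → ℝ} {β : E d → Al d 1} {p : E d} (hχ : DifferentiableAt ℝ χ p)
    (hβ : DifferentiableAt ℝ β p) (u v : E d) :
    extDeriv (fun p => χ p • β p) p ![u, v] = χ p * extDeriv β p ![u, v] +
      (fderiv ℝ χ p u * β p ![v] - fderiv ℝ χ p v * β p ![u]) := by
  have hd : DifferentiableAt ℝ (fun p => χ p • β p) p := hχ.smul hβ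
  rw [ext1_apply hd, ext1_apply hβ]
  have h1 : ∀ w : E d, fderiv ℝ (fun p => χ p • β p) p w =
      χ p • fderiv ℝ β p w + fderiv ℝ χ p w • β p := by
    intro w
    have h2 := (hχ.hasFDerivAt.smul hβ.hasFDerivAt).fderiv
    have h3 : fderiv ℝ (fun p => χ p • β p) p = _ := h2
    rw [h3]
    rfl
  rw [h1, h1]
  have h4 : ∀ (w w' : E d), (χ p • fderiv ℝ β p w + fderiv ℝ χ p w • β p) ![w'] =
      χ p * fderiv ℝ β p w ![w'] + fderiv ℝ χ p w * β p ![w'] := fun w w' => rfl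
  rw [h4, h4]
  ring

theorem one_bound (η : Al d 1) (v : E d) : |η ![v]| ≤ ‖η‖ * ‖v‖ := by
  have := η.le_opNorm ![v]
  simpa [Real.norm_eq_abs] using this

theorem cut_bound {χ : E d → ℝ} {β : E d → Al d 1} {p : E d} (u v : E d) :
    |fderiv ℝ χ p u * β p ![v] - fderiv ℝ χ p v * β p ![u]| ≤
      2 * (‖fderiv ℝ χ p‖ * ‖β p‖) * (‖u‖ * ‖v‖) := by
  have h1 : |fderiv ℝ χ p u * β p ![v]| ≤ (‖fderiv ℝ χ p‖ * ‖u‖) * (‖β p‖ * ‖v‖) := by
    rw [abs_mul]
    have h2 := (fderiv ℝ χ p).le_opNorm u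
    rw [Real.norm_eq_abs] at h2
    exact mul_le_mul h2 (one_bound _ _) (abs_nonneg _) (by positivity)
  have h1' : |fderiv ℝ χ p v * β p ![u]| ≤ (‖fderiv ℝ χ p‖ * ‖v‖) * (‖β p‖ * ‖u‖) := by
    rw [abs_mul]
    have h2 := (fderiv ℝ χ p).le_opNorm v
    rw [Real.norm_eq_abs] at h2
    exact mul_le_mul h2 (one_bound _ _) (abs_nonneg _) (by positivity)
  refine (abs_sub _ _).trans ?_
  calc _ ≤ (‖fderiv ℝ χ p‖ * ‖u‖) * (‖β p‖ * ‖v‖) + (‖fderiv ℝ χ p‖ * ‖v‖) * (‖β p‖ * ‖u‖) :=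
        add_le_add h1 h1'
    _ = _ := by ring

section prod

variable {n : ℕ} {D : ℝ} {x : Fin n → E d} {r : Fin n → ℝ} {ψ : Fin n → E d → ℝ}

/-- the product cut-off function -/
def pc (ψ : Fin n → E d → ℝ) (p : E d) : ℝ := ∏ i, (1 - ψ i p)

variable (hψ : ∀ i, SB D (x i) (r i) (ψ i))
include hψ

theorem pc_smooth : ContDiff ℝ ∞ (pc ψ) := by
  unfold pc
  exact contDiff_prod fun i _ => contDiff_const.sub (hψ i).smooth

theorem pc_nonneg (p : E d) : 0 ≤ pc ψ p :=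
  Finset.prod_nonneg fun i _ => by have := (hψ i).le_one p; linarith

theorem pc_le_one (p : E d) : pc ψ p ≤ 1 :=
  Finset.prod_le_one (fun i _ => by have := (hψ i).le_one p; linarith)
    (fun i _ => by have := (hψ i).nonneg p; linarith)

theorem pc_fderiv (p : E d) : ‖fderiv ℝ (pc ψ) p‖ ≤ ∑ i, ‖fderiv ℝ (ψ i) p‖ := by
  have h1 : ∀ i ∈ (Finset.univ : Finset (Fin n)),
      HasFDerivAt (fun p => 1 - ψ i p) (-(fderiv ℝ (ψ i) p)) p := by
    intro i _
    have h2 : HasFDerivAt (ψ i) (fderiv ℝ (ψ i) p) p :=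
      ((hψ i).smooth.differentiable (by simp) p).hasFDerivAt
    have h3 := (hasFDerivAt_const (1 : ℝ) p).sub h2
    rwa [zero_sub] at h3
  have h4 := (HasFDerivAt.finsetProd h1).fderiv
  have h5 : fderiv ℝ (pc ψ) p = _ := h4
  rw [h5]
  refine (norm_sum_le _ _).trans (Finset.sum_le_sum fun i _ => ?_)
  rw [norm_smul, norm_neg]
  refine mul_le_of_le_one_left (norm_nonneg _) ?_
  rw [Real.norm_eq_abs, abs_of_nonneg (Finset.prod_nonneg fun j _ => by
    have := (hψ j).le_one p; linarith)]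
  exact Finset.prod_le_one (fun j _ => by have := (hψ j).le_one p; linarith)
    (fun j _ => by have := (hψ j).nonneg p; linarith)

theorem pc_zero {p : E d} {i : Fin n} (h : ‖p - x i‖ < r i) : pc ψ =ᶠ[𝓝 p] fun _ => 0 := by
  have h2 : ∀ᶠ y in 𝓝 p, ‖y - x i‖ < r i :=
    (continuous_id.sub continuous_const).norm.continuousAt.eventually_lt continuousAt_const h
  filter_upwards [h2] with y hy
  unfold pc
  refine Finset.prod_eq_zero (Finset.mem_univ i) ?_
  rw [(hψ i).one y hy.le, sub_self]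

theorem pc_one {p : E d} (h : ∀ i, 2 * r i ≤ ‖p - x i‖) : pc ψ p = 1 := by
  unfold pc
  refine Finset.prod_eq_one fun i _ => ?_
  rw [(hψ i).zero p (h i), sub_zero]

end prod

/-- smooth and closed on `Ω` -/
def SC (Ω : Set (E d)) (s : E d → Al d 2) : Prop :=
  ContDiffOn ℝ ∞ s Ω ∧ ∀ p ∈ Ω, extDeriv s p = 0

theorem SC.add {Ω : Set (E d)} (hΩ : IsOpen Ω) {s t : E d → Al d 2} (hs : SC Ω s) (ht : SC Ω t) :
    SC Ω (s + t) := by
  refine ⟨hs.1.add ht.1, fun p hp => ?_⟩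
  have h1 : DifferentiableAt ℝ s p :=
    (hs.1.contDiffAt (hΩ.mem_nhds hp)).differentiableAt (by simp)
  have h2 : DifferentiableAt ℝ t p :=
    (ht.1.contDiffAt (hΩ.mem_nhds hp)).differentiableAt (by simp)
  rw [extDeriv_add h1 h2, hs.2 p hp, ht.2 p hp, add_zero]

theorem SC.smul {Ω : Set (E d)} {s : E d → Al d 2} (hs : SC Ω s) (c : ℝ) : SC Ω (c • s) := by
  refine ⟨hs.1.const_smul c, fun p hp => ?_⟩
  rw [extDeriv_smul, hs.2 p hp, smul_zero]

theorem SC.sum {Ω : Set (E d)} (hΩ : IsOpen Ω) {ι : Type} (t : Finset ι) {s : ι → E d → Al d 2}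
    (hs : ∀ i ∈ t, SC Ω (s i)) : SC Ω (∑ i ∈ t, s i) := by
  refine Finset.sum_induction s (SC Ω) (fun a b ha hb => ha.add hΩ hb) ?_ hs
  refine ⟨contDiffOn_const, fun p _ => ?_⟩
  have h1 : extDeriv (fun _ : E d => (0 : Al d 2)) p = 0 := by
    have := extDeriv_smul (𝕜 := ℝ) (fun _ : E d => (0 : Al d 2)) (x := p) (c := (0 : ℝ))
    simp only [zero_smul] at this
    exact this
  exact h1

end Pool.Agent.Q235.SZ
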