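import Pool.Agent.Y501.SY.PubT

/-!
Symplectic forms on the complement of a set of zero length: the definitions used in the statement.
-/

set_option autoImplicit false

open Set Filter Topology MeasureTheory
open scoped Manifold ContDiff

noncomputable section

namespace Pool.Agent.Q235.SRP

open Pool.Agent.Y501.SYP

variable {V : Type} [NormedAddCommGroup V] [NormedSpace ℝ V]
  {X : Type} [TopologicalSpace X] [ChartedSpace V X]

/-- `J` is Hölder continuous near `x`, with some positive exponent, in the chart at `x`. -/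
def HolderNear (J : End V X) (x : X) : Prop :=
  ∃ a L r : ℝ, 0 < a ∧ 0 < r ∧ ∀ p ∈ Metric.ball (chartAt V x x) r,
    ∀ q ∈ Metric.ball (chartAt V x x) r, ∀ v : V,
      ‖inChart J x p v - inChart J x q v‖ ≤ L * ‖p - q‖ ^ a * ‖v‖

/-- `β` is smooth and `dβ = σ` on the complement of `K` in `N`. -/
def IsPrimitive (β : Form V X 1) (σ : Form V X 2) (K N : Set X) : Prop :=
  ∀ (U : Set V) (φ : V → X), SmoothParam U φ → (∀ p ∈ U, φ p ∈ N ∧ φ p ∉ K) →
    ContDiffOn ℝ ∞ (pb φ β) U ∧ ∀ p ∈ U, extDeriv (pb φ β) p = pb φ σ p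

/-- `β` is bounded on the complement of `K` near `z`, in the chart at `z`. -/
def BddNear1 (β : Form V X 1) (K : Set X) (z : X) : Prop :=
  ∃ B : ℝ, ∀ᶠ p in 𝓝 (chartAt V z z), (chartAt V z).symm p ∉ K →
    ‖pb (chartAt V z).symm β p‖ ≤ B

/-- `z` is an isolated point of `K`, and the product of the distance from `z` and the norm of `β`
tends to zero at `z`, in the chart at `z`. -/
def PoleLtOne (β : Form V X 1) (K : Set X) (z : X) : Prop :=
  (∀ᶠ x in 𝓝 z, x ∈ K → x = z) ∧ ∀ e : ℝ, 0 < e → ∀ᶠ p in 𝓝 (chartAt V z z),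
    (chartAt V z).symm p ∉ K → ‖p - chartAt V z z‖ * ‖pb (chartAt V z).symm β p‖ ≤ e

/-- `σ` is a closed two-form on the complement of `K` and tames `J` there; near every point of `K`
it has a primitive which is bounded, or which is `o(dist⁻¹)` if the point is isolated in `K`. -/
structure TamingOff (J : End V X) (σ : Form V X 2) (K : Set X) : Prop where
  closed : ClosedOff σ K
  tames : ∀ x, x ∉ K → TamesAt σ J x
  prim : ∀ z ∈ K, ∃ (β : Form V X 1) (N : Set X), N ∈ 𝓝 z ∧ IsPrimitive β σ K N ∧
    (BddNear1 β K z ∨ PoleLtOne β K z)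

end Pool.Agent.Q235.SRP
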