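import Pool.Agent.Y501.SY.PubV
import Pool.Agent.Q235.SR.PubR

/-!
Forms with singularities of zero length in a prescribed class: the structure used in the statement.
-/

set_option autoImplicit false

open Set Filter Topology MeasureTheory
open scoped Manifold ContDiff

noncomputable section

namespace Pool.Agent.Q235.SRP

open Pool.Agent.Y501.SYP

variable {V : Type} [NormedAddCommGroup V] [NormedSpace ℝ V]
  {X : Type} [TopologicalSpace X] [ChartedSpace V X]

/-- `σ = σ₀ + dβ` is a two-form on the complement of `K` and tames `J` there, and the one-form `β`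
is bounded near every point of `K`, or `o(dist⁻¹)` if the point is isolated in `K`. -/
structure TamingInClassOff (J : End V X) (σ₀ : Form V X 2) (β : Form V X 1) (σ : Form V X 2)
    (K : Set X) : Prop where
  smooth₁ : SmoothOff β K
  smooth₂ : SmoothOff σ K
  eq : EqPlusD σ σ₀ β K
  tames : ∀ x, x ∉ K → TamesAt σ J x
  bdd : ∀ z ∈ K, BddNear1 β K z ∨ PoleLtOne β K z

end Pool.Agent.Q235.SRP
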