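import Pool.Agent.Q235.SR.MainC
import Pool.Agent.Q235.SR.PubC
import Pool.Agent.Y501.SY.BridgeV

/-!
Forms with singularities of zero length in a prescribed class: comparison of the definitions.
-/

set_option autoImplicit false

open Set Filter Topology MeasureTheory
open scoped Manifold ContDiff

noncomputable section

namespace Pool.Agent.Q235.SRP

open Pool.Agent.Y501.SYP

attribute [local instance] cs mf

section

variable {d : ℕ} {X : Type} [TopologicalSpace X] [ChartedSpace (ES d) X]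
  [IsManifold 𝓘(ℝ, ES d) ∞ X]

theorem fillC [T2Space X] (J : End (ES d) X) (hJ : IsAlmostComplex J) (K : Set X)
    (hK : IsCompact K)
    (hH : ∀ x₀ : X, μH[1] (chartAt (ES d) x₀ '' (K ∩ (chartAt (ES d) x₀).source)) = 0)
    (hol : ∀ x ∈ K, HolderNear J x) (σ₀ : Form (ES d) X 2) (hσ₀ : IsSmooth σ₀)
    (hσ₀c : IsClosedForm σ₀) (β : Form (ES d) X 1) (σ : Form (ES d) X 2)
    (hσ : TamingInClassOff J σ₀ β σ K) (U : Set X) (hU : IsOpen U) (hKU : K ⊆ U) :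
    ∃ (α : Form (ES d) X 1) (ρ : Form (ES d) X 2), IsSmooth α ∧ IsSmooth ρ ∧ IsD α ρ ∧
      IsTamingSymplectic (addF σ₀ ρ) J ∧ (∀ x, x ∉ U → α x = β x ∧ addF σ₀ ρ x = σ x) ∧
      ∀ τ : Form (ES d) X 2, (∀ x, TamesAt τ J x) →
        ∀ t : ℝ, 0 ≤ t → t ≤ 1 → NondegForm (segment τ (addF σ₀ ρ) t) := by
  obtain ⟨α, ρ, h1, h2, h3, h4, h5, h6⟩ := SZ.rmainC (d := d) (X := X) (J := J) (ac_of J hJ)
    (σ₀ := σ₀) ((smooth_iff σ₀).1 hσ₀) ((closed_iff σ₀).1 hσ₀c) (β := β) (σ := σ)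
    (K := K) (U := U) hK hU hKU hH
    (fun V φ hV hφ hp => hσ.smooth₁ V φ ⟨hV, hφ⟩ hp)
    (fun V φ hV hφ hp => hσ.smooth₂ V φ ⟨hV, hφ⟩ hp)
    (fun V φ hV hφ hp p hpV => by
      exact (sub_eq_iff_eq_add'.2 (hσ.eq V φ ⟨hV, hφ⟩ hp p hpV)).symm)
    hσ.tames hol hσ.bdd
  have h7 : IsTamingSymplectic (addF σ₀ ρ) J :=
    symp_of ((smooth_iff _).2 (((smooth_iff σ₀).1 hσ₀).add h2)) ((closed_iff _).2 h4) h5
  exact ⟨α, ρ, (smooth_iff α).2 h1, (smooth_iff ρ).2 h2, (isD_iff α ρ).2 h3, h7, h6,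
    fun τ hτ t ht0 ht1 => segment_nondeg hτ h7.tames t ht0 ht1⟩

end

end Pool.Agent.Q235.SRP
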