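import Pool.Agent.Q235.SR.PubC
import Pool.Agent.Q235.SQ.PubQ

/-!
Positivity up to a set of small weighted content in a prescribed class: the definitions used in the
statement.
-/

set_option autoImplicit false

open Set Filter Topology MeasureTheory
open scoped Manifold ContDiff

noncomputable section

namespace Pool.Agent.Q235.SRP

open Pool.Agent.Y501.SYP

variable {d : ℕ} {X : Type} [TopologicalSpace X] [ChartedSpace (ES d) X]

/-- Some neighbourhood of `z` in `K` has one-dimensional Hausdorff measure zero, in the chart at
`z`. -/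
def ZeroLengthNear (K : Set X) (z : X) : Prop :=
  ∃ N ∈ 𝓝 z, μH[1] (chartAt (ES d) z '' (K ∩ N ∩ (chartAt (ES d) z).source)) = 0

/-- `σ = σ₀ + dβ` is a two-form on the complement of `K`.  Near each point of `K` the forms `β` and
`σ` are bounded, or `K` has zero length near the point and `β` is bounded (or `o(dist⁻¹)`, if the
point is isolated in `K`). -/
structure InClassSing (σ₀ : Form (ES d) X 2) (β : Form (ES d) X 1) (σ : Form (ES d) X 2)
    (K : Set X) : Prop where
  smooth₁ : SmoothOff β K
  smooth₂ : SmoothOff σ K
  eq : EqPlusD σ σ₀ β K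
  sing : ∀ z ∈ K, (BddNearK β K z ∧ BddNearK σ K z) ∨
    (ZeroLengthNear (d := d) K z ∧ (BddNear1 β K z ∨ PoleLtOne β K z))

end Pool.Agent.Q235.SRP
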