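import Pool.Agent.Q235.SR.MixM
import Pool.Agent.Q235.SR.PubM
import Pool.Agent.Q235.SQ.FinalQ
import Pool.Agent.Y501.SY.BridgeV

/-!
Positivity up to a set of small weighted content in a prescribed class: all steps together.
-/

set_option autoImplicit false

open Set Filter Topology MeasureTheory
open scoped Manifold ContDiff Pointwise

noncomputable section

namespace Pool.Agent.Q235.SZ

open Pool.Agent.Y501.SY Pool.Agent.Y455.SY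

section

variable {d m : ℕ} {X : Type} [TopologicalSpace X] [ChartedSpace (E d) X]
  [IsManifold (𝓡 d) ∞ X]

theorem smallC (hd : 1 ≤ d) [CompactSpace X] [T2Space X] {F : X → E m}
    (hF : ContMDiff (𝓡 d) (𝓡 m) ∞ F) (hFi : Function.Injective F)
    (hFd : ∀ x, Function.Injective (mfderiv (𝓡 d) (𝓡 m) F x)) {J : End d X}
    (hJ : IsAlmostComplex J) (hol : LocHol J) :
    ∃ ε : ℝ, 0 < ε ∧ ∀ (K : Set X), IsClosed K →
      (∀ x₀ : X, μH[(d : ℝ) - 1] (chartAt (E d) x₀ '' (K ∩ (chartAt (E d) x₀).source)) = 0) →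
      ∀ (σ₀ : Form d X 2) (β : Form d X 1) (σ : Form d X 2), IsSmooth σ₀ → IsClosedForm σ₀ →
      SmoothOff β K → SmoothOff σ K → IsDOff β (σ - σ₀) K → (∀ z ∈ K, SingPt J β σ K z) →
      ∀ (ι : Type) (x : ι → X) (r B : ι → ℝ), (∀ i, 0 < r i) → (∀ i, 0 ≤ B i) →
      (∀ s : Finset ι, ∑ i ∈ s, (1 + B i) * r i ^ 2 ≤ ε) →
      (∀ y, Low F J σ K 1 y ∨ ∃ i, ‖F y - F (x i)‖ < r i ∧ Low F J σ K (-B i) y) →
      ∃ (α : Form d X 1) (ρ : Form d X 2), IsSmooth α ∧ IsSmooth ρ ∧ IsD α ρ ∧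
        IsClosedForm (σ₀ + ρ) ∧ ∀ x, TamesAt (σ₀ + ρ) J x := by
  obtain ⟨ε, hε, haux⟩ := smallAux hF hFi hFd hJ hol
  refine ⟨ε, hε, ?_⟩
  intro K hK hH σ₀ β σ hσ₀ hσ₀c hβ hσ hβσ hsing ι x r B hr hB hsum hpos
  obtain ⟨α, η, hex, hLB⟩ := haux K σ ι x r B hr hB hsum hpos
  refine mix hd hF hFd hJ hK hH hσ₀ hσ₀c (hβ.addSmooth hex.s1) (hσ.addSmooth hex.s2) ?_ hLB
    fun z hz => (hsing z hz).add hex.s1 hex.s2
  intro U φ hU hφ hKφ p hp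
  have h1 := hβσ U φ hU hφ hKφ p hp
  have h2 := hex.isD U φ hU hφ p hp
  rw [pb_add, extDeriv_add (hβ.diffAt hU hφ hKφ hp) (hex.s1.diffAt hU hφ hp), h1, h2]
  have e : σ + η - σ₀ = (σ - σ₀) + η := by abel
  rw [e, pb_add]
  rfl

end

end Pool.Agent.Q235.SZ

namespace Pool.Agent.Q235.SRP

open Pool.Agent.Y501.SYP Pool.Agent.Q235.SQP

attribute [local instance] cs mf

section

variable {d m : ℕ} {X : Type} [TopologicalSpace X] [ChartedSpace (ES d) X]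
  [IsManifold 𝓘(ℝ, ES d) ∞ X]

theorem low_of' {F : X → ES m} (hF : IsEmb (V := ES d) F) {J : End (ES d) X}
    (hJ : IsAlmostComplex J) {σ : Form (ES d) X 2} {K : Set X} (hK : IsClosed K)
    (hσ : SmoothOff σ K) {κ : ℝ} {y : X} (h : AtLeast F J σ K κ y) :
    SZ.Low (d := d) (m := m) (X := X) F J σ K κ y := by
  by_cases hy : y ∈ K
  · exact h.on hy
  · exact SZ.low_point (d := d) (m := m) (X := X) hF.smooth hF.immersion (ac_of J hJ) hK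
      (fun V φ hV hφ hp => hσ V φ ⟨hV, hφ⟩ hp) hy (h.off hy)

theorem smallCF [CompactSpace X] [T2Space X] (hd : 1 ≤ d) (F : X → ES m)
    (hF : IsEmb (V := ES d) F) (J : End (ES d) X) (hJ : IsAlmostComplex J) (hol : LocHolder J) :
    ∃ ε : ℝ, 0 < ε ∧ ∀ (K : Set X), IsClosed K →
      (∀ x₀ : X, μH[(d : ℝ) - 1] (chartAt (ES d) x₀ '' (K ∩ (chartAt (ES d) x₀).source)) = 0) →
      ∀ (σ₀ : Form (ES d) X 2) (β : Form (ES d) X 1) (σ : Form (ES d) X 2), IsSmooth σ₀ →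
      IsClosedForm σ₀ → InClassSing σ₀ β σ K →
      ∀ (ι : Type) (x : ι → X) (r C : ι → ℝ), SmallBalls ε r C →
      (∀ y, AtLeast F J σ K 1 y ∨ ∃ i, ‖F y - F (x i)‖ < r i ∧ AtLeast F J σ K (-C i) y) →
      ∃ (α : Form (ES d) X 1) (ρ : Form (ES d) X 2), IsSmooth α ∧ IsSmooth ρ ∧ IsD α ρ ∧
        IsTamingSymplectic (addF σ₀ ρ) J ∧ ∀ τ : Form (ES d) X 2, (∀ x, TamesAt τ J x) →
          ∀ t : ℝ, 0 ≤ t → t ≤ 1 → NondegForm (segment τ (addF σ₀ ρ) t) := by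
  obtain ⟨ε, hε, h⟩ := SZ.smallC (d := d) (m := m) (X := X) hd (F := F) hF.smooth hF.inj
    hF.immersion (J := J) (ac_of J hJ) (locHol_of hol)
  refine ⟨ε, hε, ?_⟩
  intro K hK hH σ₀ β σ hσ₀ hσ₀c hσ ι x r C hsum hpos
  obtain ⟨α, ρ, h1, h2, h3, h4, h5⟩ := h K hK hH σ₀ β σ ((smooth_iff σ₀).1 hσ₀)
    ((closed_iff σ₀).1 hσ₀c)
    (fun V φ hV hφ hp => hσ.smooth₁ V φ ⟨hV, hφ⟩ hp)
    (fun V φ hV hφ hp => hσ.smooth₂ V φ ⟨hV, hφ⟩ hp)
    (fun V φ hV hφ hp p hpV => by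
      exact (sub_eq_iff_eq_add'.2 (hσ.eq V φ ⟨hV, hφ⟩ hp p hpV)).symm)
    (fun z hz => by
      rcases hσ.sing z hz with h1 | ⟨h1, h2⟩
      · exact Or.inl h1
      · exact Or.inr ⟨locHol_of hol z, h1, h2⟩)
    ι x r C hsum.pos hsum.nonneg hsum.sum
    (fun y => by
      rcases hpos y with h | ⟨i, h1, h2⟩
      · exact Or.inl (low_of' hF hJ hK hσ.smooth₂ h)
      · exact Or.inr ⟨i, h1, low_of' hF hJ hK hσ.smooth₂ h2⟩)
  have h7 : IsTamingSymplectic (addF σ₀ ρ) J :=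
    symp_of ((smooth_iff _).2 (((smooth_iff σ₀).1 hσ₀).add h2)) ((closed_iff _).2 h4) h5
  exact ⟨α, ρ, (smooth_iff α).2 h1, (smooth_iff ρ).2 h2, (isD_iff α ρ).2 h3, h7,
    fun τ hτ t ht0 ht1 => segment_nondeg hτ h7.tames t ht0 ht1⟩

end

end Pool.Agent.Q235.SRP
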