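import Pool.Agent.Q235.SR.Main
import Pool.Agent.Q235.SR.PubR
import Pool.Agent.Y501.SY.Bridge

/-!
Symplectic forms on the complement of a set of zero length: comparison of the definitions.
-/

set_option autoImplicit false

open Set Filter Topology MeasureTheory
open scoped Manifold ContDiff

noncomputable section

namespace Pool.Agent.Q235.SRP

open Pool.Agent.Y501.SYP

attribute [local instance] cs mf

section

variable {d : ℕ} {X : Type} [TopologicalSpace X] [ChartedSpace (ES d) X]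
  [IsManifold 𝓘(ℝ, ES d) ∞ X]

theorem fillR [T2Space X] (J : End (ES d) X) (hJ : IsAlmostComplex J) (K : Set X)
    (hK : IsCompact K)
    (hH : ∀ x₀ : X, μH[1] (chartAt (ES d) x₀ '' (K ∩ (chartAt (ES d) x₀).source)) = 0)
    (hol : ∀ x ∈ K, HolderNear J x) (σ : Form (ES d) X 2) (hσ : TamingOff J σ K)
    (U : Set X) (hU : IsOpen U) (hKU : K ⊆ U) :
    ∃ w : Form (ES d) X 2, IsTamingSymplectic w J ∧ ∀ x, x ∉ U → w x = σ x := by
  obtain ⟨w, h1, h2, h3, h4⟩ := SZ.rmain (d := d) (X := X) (J := J) (ac_of J hJ) (σ := σ)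
    (K := K) (U := U) hK hU hKU hH
    (fun V φ hV hφ hp => (hσ.closed V φ ⟨hV, hφ⟩ hp).1)
    (fun V φ hV hφ hp p hpV => (hσ.closed V φ ⟨hV, hφ⟩ hp).2 p hpV)
    hσ.tames hol
    (fun z hz => by
      obtain ⟨β, N, g1, g2, g3⟩ := hσ.prim z hz
      exact ⟨β, N, g1, fun V φ hV hφ hp => g2 V φ ⟨hV, hφ⟩ hp, g3⟩)
  exact ⟨w, symp_of ((smooth_iff w).2 h1) ((closed_iff w).2 h2) h3, h4⟩

end

end Pool.Agent.Q235.SRP
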