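import Pool.Agent.Q235.SR.Lp

/-!
# Coverings of sets of zero length
-/

set_option autoImplicit false

open Set Filter Topology MeasureTheory
open scoped Manifold ContDiff Pointwise

noncomputable section

namespace Pool.Agent.Q235.SZ

open Pool.Agent.Y501.SY Pool.Agent.Y515.SY

variable {d : ℕ}

theorem h1_cover {k : Set (E d)} (hk : IsCompact k) (h0 : μH[1] k = 0) {δ : ℝ} (hδ : 0 < δ) :
    ∃ (n : ℕ) (x : Fin n → E d) (r : Fin n → ℝ), (∀ i, x i ∈ k) ∧ (∀ i, 0 < r i) ∧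
      (∀ p ∈ k, ∃ i, ‖p - x i‖ < r i) ∧ ∑ i, r i ≤ δ := by
  rw [Measure.hausdorffMeasure_apply] at h0
  have h1 : (⨅ (t : ℕ → Set (E d)) (_ : k ⊆ ⋃ n, t n)
      (_ : ∀ n, Metric.ediam (t n) ≤ ENNReal.ofReal 1),
      ∑' n, ⨆ _ : (t n).Nonempty, Metric.ediam (t n) ^ (1 : ℝ)) < ENNReal.ofReal (δ / 2) := by
    refine lt_of_le_of_lt ?_ (ENNReal.ofReal_pos.2 (half_pos hδ))
    rw [← h0]
    exact le_iSup₂ (f := fun (r : ENNReal) (_ : 0 < r) => ⨅ (t : ℕ → Set (E d))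
      (_ : k ⊆ ⋃ n, t n) (_ : ∀ n, Metric.ediam (t n) ≤ r),
      ∑' n, ⨆ _ : (t n).Nonempty, Metric.ediam (t n) ^ (1 : ℝ)) (ENNReal.ofReal 1)
      (ENNReal.ofReal_pos.2 one_pos)
  simp only [iInf_lt_iff] at h1
  obtain ⟨t, hcov, hdiam, hsum⟩ := h1
  have hfin : ∀ n, Metric.ediam (t n) ≠ ⊤ := fun n =>
    ne_top_of_le_ne_top ENNReal.ofReal_ne_top (hdiam n)
  obtain ⟨D, hD⟩ : ∃ D : ℕ → ℝ, D = fun n => (Metric.ediam (t n)).toReal := ⟨_, rfl⟩
  have hD0 : ∀ n, 0 ≤ D n := by intro n; rw [hD]; exact ENNReal.toReal_nonneg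
  have hchoose : ∀ n : ℕ, ∃ (x : E d), (t n ∩ k).Nonempty → x ∈ t n ∧ x ∈ k := by
    intro n
    by_cases hn : (t n ∩ k).Nonempty
    · obtain ⟨x, hxt, hxk⟩ := hn
      exact ⟨x, fun _ => ⟨hxt, hxk⟩⟩
    · exact ⟨0, fun h => absurd h hn⟩
  choose x hx using hchoose
  obtain ⟨r, hr⟩ : ∃ r : ℕ → ℝ, r = fun n => D n + δ / 2 / 2 / 2 ^ n := ⟨_, rfl⟩
  have hDr : ∀ n, D n < r n := by
    intro n
    rw [hr]
    exact lt_add_of_pos_right _ (by positivity)
  obtain ⟨b', hb'sub, hb'fin, hb'cov⟩ := hk.elim_finite_subcover_image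
    (b := {n : ℕ | (t n ∩ k).Nonempty}) (c := fun n => Metric.ball (x n) (r n))
    (fun n _ => Metric.isOpen_ball) (by
      intro y hy
      obtain ⟨n, hn⟩ := Set.mem_iUnion.1 (hcov hy)
      have hI : (t n ∩ k).Nonempty := ⟨y, hn, hy⟩
      obtain ⟨hx1, hx2⟩ := hx n hI
      refine Set.mem_iUnion₂.2 ⟨n, hI, ?_⟩
      rw [Metric.mem_ball]
      refine lt_of_le_of_lt ?_ (hDr n)
      rw [hD]
      have h3 : edist y (x n) ≤ Metric.ediam (t n) := Metric.edist_le_ediam_of_mem hn hx1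
      rw [← ENNReal.toReal_ofReal (dist_nonneg (x := y) (y := x n)), ← edist_dist]
      exact ENNReal.toReal_mono (hfin n) h3)
  obtain ⟨J, hJ⟩ : ∃ J, J = hb'fin.toFinset := ⟨_, rfl⟩
  have hJI : ∀ n ∈ J, (t n ∩ k).Nonempty := by
    intro n hn
    rw [hJ] at hn
    exact hb'sub (hb'fin.mem_toFinset.1 hn)
  refine ⟨J.card, fun i => x (J.equivFin.symm i), fun i => r (J.equivFin.symm i), ?_, ?_, ?_, ?_⟩
  · intro i
    exact (hx _ (hJI _ (J.equivFin.symm i).2)).2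
  · intro i
    exact (hD0 _).trans_lt (hDr _)
  · intro y hy
    obtain ⟨n, hn, hyn⟩ := Set.mem_iUnion₂.1 (hb'cov hy)
    have hnJ : n ∈ J := by
      rw [hJ]
      exact hb'fin.mem_toFinset.2 hn
    refine ⟨J.equivFin ⟨n, hnJ⟩, ?_⟩
    dsimp only
    rw [Equiv.symm_apply_apply, ← dist_eq_norm]
    exact hyn
  · have e0 : ∑ i : Fin J.card, r (J.equivFin.symm i) = ∑ n ∈ J, r n := by
      rw [← Finset.sum_coe_sort J r]
      exact Equiv.sum_comp J.equivFin.symm (fun n : J => r n)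
    rw [e0]
    have e1 : ∑ n ∈ J, D n < δ / 2 := by
      have e2 : ENNReal.ofReal (∑ n ∈ J, D n) < ENNReal.ofReal (δ / 2) := by
        refine lt_of_le_of_lt ?_ hsum
        rw [ENNReal.ofReal_sum_of_nonneg (fun n _ => hD0 n)]
        refine le_trans (Finset.sum_le_sum fun n hn => ?_) (ENNReal.sum_le_tsum J)
        have hne : (t n).Nonempty := (hJI n hn).mono Set.inter_subset_left
        rw [iSup_pos hne, ENNReal.rpow_one, hD]
        simp only
        rw [ENNReal.ofReal_toReal (hfin n)]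
      exact (ENNReal.ofReal_lt_ofReal_iff (half_pos hδ)).1 e2
    have e3 : ∑ n ∈ J, δ / 2 / 2 / 2 ^ n ≤ δ / 2 := by
      exact ((summable_geometric_two' (δ / 2)).sum_le_tsum J (fun n _ => by positivity)).trans
        (le_of_eq (tsum_geometric_two' (δ / 2)))
    rw [hr, Finset.sum_add_distrib]
    linarith

theorem cov_bdd {Ω k : Set (E d)} {β : E d → Al d 1} (hk : IsCompact k) (h0 : μH[1] k = 0)
    {B : ℝ} (hB : ∀ p ∈ Ω \ k, ‖β p‖ ≤ B) : Cov Ω k β := by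
  intro δ hδ
  obtain ⟨n, x, r, hx, hr, hcv, hs⟩ := h1_cover hk h0 (δ := δ / (1 + |B|)) (by positivity)
  refine ⟨n, x, r, fun _ => |B|, hx, hr, fun _ => abs_nonneg _, hcv, ?_, ?_⟩
  · rw [← Finset.sum_mul]
    rw [le_div_iff₀ (by positivity)] at hs
    exact hs
  · intro i p hp _ hpj
    refine (hB p ⟨hp, fun hpk => ?_⟩).trans (le_abs_self B)
    obtain ⟨j, hj⟩ := hcv p hpk
    exact absurd hj (not_lt.2 (hpj j))

theorem cov_pt {Ω k : Set (E d)} {β : E d → Al d 1} {c : E d} (hk : k ⊆ {c})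
    (hβ : ∀ e : ℝ, 0 < e → ∃ ρ : ℝ, 0 < ρ ∧ ∀ p ∈ Ω \ k, ‖p - c‖ < ρ → ‖p - c‖ * ‖β p‖ ≤ e) :
    Cov Ω k β := by
  intro δ hδ
  by_cases hc : c ∈ k
  · obtain ⟨ρ, hρ, hb⟩ := hβ (δ / 2) (by positivity)
    obtain ⟨r, hr, hr1, hr2⟩ : ∃ r : ℝ, 0 < r ∧ 2 * r ≤ ρ ∧ r ≤ δ / 2 :=
      ⟨min (ρ / 2) (δ / 2), by positivity, by linarith [min_le_left (ρ / 2) (δ / 2)],
        min_le_right _ _⟩
    refine ⟨1, fun _ => c, fun _ => r, fun _ => δ / 2 / r, fun _ => hc, fun _ => hr,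
      fun _ => by positivity, ?_, ?_, ?_⟩
    · intro p hp
      refine ⟨0, ?_⟩
      rw [hk hp, sub_self, norm_zero]
      exact hr
    · rw [Fin.sum_univ_one]
      have : r * (1 + δ / 2 / r) = r + δ / 2 := by field_simp
      rw [this]
      linarith
    · intro _ p hp hp2 hpj
      have h1 : r ≤ ‖p - c‖ := hpj 0
      have hpc : p ∉ k := by
        intro h
        rw [hk h, sub_self, norm_zero] at h1
        linarith
      have h2 := hb p ⟨hp, hpc⟩ (by linarith)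
      rw [le_div_iff₀ hr, mul_comm]
      refine le_trans ?_ h2
      exact mul_le_mul_of_nonneg_right h1 (norm_nonneg _)
  · have hke : k = ∅ := by
      rw [eq_empty_iff_forall_notMem]
      intro p hp
      have : p = c := hk hp
      rw [this] at hp
      exact hc hp
    refine ⟨0, Fin.elim0, Fin.elim0, Fin.elim0, fun i => i.elim0, fun i => i.elim0,
      fun i => i.elim0, ?_, ?_, fun i => i.elim0⟩
    · intro p hp
      rw [hke] at hp
      exact absurd hp (notMem_empty p)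
    · rw [Fin.sum_univ_zero]
      exact hδ.le

/-- there are spheres around `p₀` which avoid a set of zero length -/
theorem sphere_free {A : Set (E d)} (hA : μH[1] A = 0) (p₀ : E d) {ρ₀ : ℝ} (hρ₀ : 0 < ρ₀) :
    ∃ ρ : ℝ, 0 < ρ ∧ ρ < ρ₀ ∧ ∀ p ∈ A, ‖p - p₀‖ ≠ ρ := by
  have hL : LipschitzWith 1 (fun p : E d => ‖p - p₀‖) := by
    refine LipschitzWith.of_dist_le_mul fun p q => ?_
    rw [NNReal.coe_one, one_mul, Real.dist_eq, dist_eq_norm]
    have := abs_norm_sub_norm_le (p - p₀) (q - p₀)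
    rwa [sub_sub_sub_cancel_right] at this
  have h1 : μH[1] ((fun p : E d => ‖p - p₀‖) '' A) = 0 := by
    have h2 := hL.hausdorffMeasure_image_le zero_le_one A
    rw [hA, mul_zero] at h2
    exact nonpos_iff_eq_zero.1 h2
  rw [hausdorffMeasure_real] at h1
  by_contra hn
  have h3 : Ioo 0 ρ₀ ⊆ (fun p : E d => ‖p - p₀‖) '' A := by
    intro ρ hρ
    by_contra h4
    apply hn
    refine ⟨ρ, hρ.1, hρ.2, fun p hp h5 => h4 ⟨p, hp, h5⟩⟩
  have h4 := measure_mono_null h3 h1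
  rw [Real.volume_Ioo, sub_zero, ENNReal.ofReal_eq_zero] at h4
  linarith

end Pool.Agent.Q235.SZ
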