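import Pool.Agent.Q235.SR.Cut
import Pool.Agent.Q235.SQ.Ext
import Pool.Agent.Q235.SQ.Anti
import Pool.Agent.Q235.SZ.Loc

/-!
# Filling in a small set: the local construction
-/

set_option autoImplicit false

open Set Filter Topology MeasureTheory
open scoped Manifold ContDiff Pointwise

noncomputable section

namespace Pool.Agent.Q235.SZ

open Pool.Agent.Y501.SY Pool.Agent.Y515.SY

variable {d : ℕ}

/-- `k` can be covered by balls such that the sum of the numbers `r (1 + b)` is small, where `r`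
is the radius and `b` bounds `β` on the part of the ball of radius `2 r` which is outside of the
covering -/
def Cov (Ω k : Set (E d)) (β : E d → Al d 1) : Prop :=
  ∀ δ : ℝ, 0 < δ → ∃ (n : ℕ) (x : Fin n → E d) (r b : Fin n → ℝ), (∀ i, x i ∈ k) ∧
    (∀ i, 0 < r i) ∧ (∀ i, 0 ≤ b i) ∧ (∀ p ∈ k, ∃ i, ‖p - x i‖ < r i) ∧
    ∑ i, r i * (1 + b i) ≤ δ ∧
    ∀ i, ∀ p ∈ Ω, ‖p - x i‖ < 2 * r i → (∀ j, r j ≤ ‖p - x j‖) → ‖β p‖ ≤ b i

/-- two functions which agree near a point give the same form -/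
theorem tau_congr {J : E d →L[ℝ] E d} {c : E d} {h h' : E d → ℝ} (hh : ContDiff ℝ ∞ h)
    (hh' : ContDiff ℝ ∞ h') {p : E d} (he : h =ᶠ[𝓝 p] h') : tau J c h p = tau J c h' p := by
  ext v
  rw [pair_eta v, tau_apply hh, tau_apply hh', he.fderiv_eq, he.self_of_nhds]

theorem ext_contAt {β : E d → Al d 1} {p : E d} (h : ContDiffAt ℝ ∞ β p) :
    ContinuousAt (extDeriv β) p := by
  have h1 : ContDiffAt ℝ ∞ (fderiv ℝ β) p := h.fderiv_right (by simp)
  exact ((ContinuousAlternatingMap.alternatizeUncurryFinCLM ℝ (E d) ℝ).continuous.continuousAt.comp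
    h1.continuousAt)

theorem ext_congr {β β' : E d → Al d 1} {p : E d} (h : β =ᶠ[𝓝 p] β') :
    extDeriv β p = extDeriv β' p := by
  unfold extDeriv
  rw [h.fderiv_eq]

theorem low_comp {Z : Set (E d)} (hZ : IsCompact Z) {s : E d → Al d 2}
    {Js : E d → E d →L[ℝ] E d} (hs : ∀ p ∈ Z, ContinuousAt s p)
    (hJ : ∀ p ∈ Z, ContinuousAt Js p)
    (hpos : ∀ p ∈ Z, ∀ v : E d, v ≠ 0 → 0 < s p ![v, Js p v]) :
    ∃ c : ℝ, 0 < c ∧ ∀ p ∈ Z, ∀ v : E d, c * ‖v‖ ^ 2 ≤ s p ![v, Js p v] := by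
  have hcont : ContinuousOn (fun z : E d × E d => s z.1 ![z.2, Js z.1 z.2])
      (Z ×ˢ Metric.sphere (0 : E d) 1) := by
    rintro ⟨p, v⟩ ⟨hp, hv⟩
    have h3 : ContinuousAt (fun z : E d × E d => s z.1) (p, v) :=
      ContinuousAt.comp (f := Prod.fst) (x := (p, v)) (hs p hp) continuousAt_fst
    have h4 : ContinuousAt (fun z : E d × E d => Js z.1) (p, v) :=
      ContinuousAt.comp (f := Prod.fst) (x := (p, v)) (hJ p hp) continuousAt_fst
    have h5 : ContinuousAt (fun z : E d × E d => Js z.1 z.2) (p, v) :=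
      h4.clm_apply continuousAt_snd
    have h6 : ContinuousAt (fun z : E d × E d => (![z.2, Js z.1 z.2] : Fin 2 → E d)) (p, v) := by
      rw [continuousAt_pi]
      intro i
      fin_cases i
      · exact continuousAt_snd
      · exact h5
    exact (h3.eval h6).continuousWithinAt
  obtain ⟨c, hc, hmin⟩ := exists_min' (hZ.prod (isCompact_sphere (0 : E d) 1)) hcont (by
    rintro ⟨p, v⟩ ⟨hp, hv⟩
    refine hpos p hp v ?_
    rintro rfl
    simp at hv)
  refine ⟨c, hc, fun p hp v => ?_⟩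
  by_cases hv : v = 0
  · rw [hv, map_zero, norm_zero]
    have h0 : (![0, 0] : Fin 2 → E d) = 0 := by
      ext i; fin_cases i <;> rfl
    rw [h0, (s p).map_zero]
    simp
  · have hn : ‖v‖ ≠ 0 := norm_ne_zero_iff.2 hv
    obtain ⟨u, hu⟩ : ∃ u, u = ‖v‖⁻¹ • v := ⟨_, rfl⟩
    have hu1 : ‖u‖ = 1 := by
      rw [hu, norm_smul, norm_inv, norm_norm, inv_mul_cancel₀ hn]
    have hvu : v = ‖v‖ • u := by
      rw [hu, smul_smul, mul_inv_cancel₀ hn, one_smul]
    have h1 := hmin (p, u) ⟨hp, by simpa using hu1⟩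
    dsimp only at h1
    have h2 : s p ![v, Js p v] = ‖v‖ ^ 2 * s p ![u, Js p u] := by
      have e1 : (![v, Js p v] : Fin 2 → E d) =
          fun i => (fun _ : Fin 2 => ‖v‖) i • (![u, Js p u] : Fin 2 → E d) i := by
        conv_lhs => rw [hvu, map_smul]
        funext i
        fin_cases i <;> rfl
      rw [e1, ContinuousAlternatingMap.map_smul_univ, Fin.prod_univ_two, smul_eq_mul]
      ring
    rw [h2, mul_comm]
    exact mul_le_mul_of_nonneg_left h1 (sq_nonneg _)

theorem lp {K L a : ℝ} (hK1 : 1 ≤ K) (hL : 0 ≤ L) (ha : 0 < a) (ha1 : a ≤ 1) :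
    ∃ R : ℝ, 0 < R ∧ ∀ (Ω k : Set (E d)) (β : E d → Al d 1) (Js : E d → E d →L[ℝ] E d),
      IsOpen Ω → IsCompact k → k ⊆ Ω → (∀ p ∈ Ω, ∀ q ∈ Ω, ‖p - q‖ < R) →
      ContDiffOn ℝ ∞ β (Ω \ k) → ContinuousOn Js Ω → (∀ p ∈ Ω, ∀ v, Js p (Js p v) = -v) →
      (∀ p ∈ Ω, 1 + ‖Js p‖ ≤ K) →
      (∀ p ∈ Ω, ∀ q ∈ Ω, ‖Js p - Js q‖ ≤ L * ‖p - q‖ ^ a) →
      (∀ p ∈ Ω \ k, ∀ v : E d, v ≠ 0 → 0 < extDeriv β p ![v, Js p v]) → Cov Ω k β →
      ∃ (s' : E d → Al d 2) (Q : Set (E d)), IsCompact Q ∧ Q ⊆ Ω ∧ k ⊆ Q ∧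
        ContDiffOn ℝ ∞ s' Ω ∧ (∀ p ∈ Ω, extDeriv s' p = 0) ∧
        (∀ p ∈ Ω \ Q, s' p = extDeriv β p) ∧
        ∀ p ∈ Ω, ∀ v : E d, v ≠ 0 → 0 < s' p ![v, Js p v] := by
  obtain ⟨R, A, b₀, c₁, hR, hA, hb0, hb1, hc₁, hpsh⟩ := psh_core (d := d) hK1 hL ha ha1
  obtain ⟨D, hD, hSB⟩ := exists_SB d
  refine ⟨R, hR, ?_⟩
  intro Ω k β Js hΩ hk hkΩ hdiam hβ hJc hJ hJK hJL hpos hcov
  have hK0 : 0 < K := by linarith
  -- the thickenings
  obtain ⟨κ, hκ, hκΩ⟩ : ∃ κ : ℝ, 0 < κ ∧ Metric.cthickening (3 * κ) k ⊆ Ω := by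
    obtain ⟨δ, hδ, h⟩ := hk.exists_cthickening_subset_open hΩ hkΩ
    refine ⟨δ / 3, by positivity, ?_⟩
    have : 3 * (δ / 3) = δ := by ring
    rwa [this]
  have hnk : ∀ p q : E d, q ∈ k → ‖p - q‖ < 2 * κ → p ∈ Metric.thickening (2 * κ) k :=
    fun p q hq h => Metric.mem_thickening_iff.2 ⟨q, hq, by rwa [dist_eq_norm]⟩
  obtain ⟨Θ, hΘ0, hΘ1, hΘm⟩ := exists_contMDiffMap_zero_one_of_isClosed (n := (⊤ : ℕ∞)) 𝓘(ℝ, E d)
    (s := (Metric.thickening (3 * κ) k)ᶜ) (t := Metric.cthickening (2 * κ) k)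
    Metric.isOpen_thickening.isClosed_compl Metric.isClosed_cthickening
    (disjoint_compl_left_iff_subset.2
      (Metric.cthickening_subset_thickening' (by positivity) (by linarith) k))
  have hΘs : ContDiff ℝ ∞ Θ := Θ.contMDiff.contDiff
  obtain ⟨Z, hZ⟩ : ∃ Z, Z = Metric.cthickening (3 * κ) k \ Metric.thickening (2 * κ) k :=
    ⟨_, rfl⟩
  have hZc : IsCompact Z := by
    rw [hZ]
    exact hk.cthickening.diff Metric.isOpen_thickening
  have hZΩ : Z ⊆ Ω := by
    rw [hZ]
    exact sdiff_subset.trans hκΩ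
  have hZk : ∀ p ∈ Z, p ∉ k := by
    intro p hp hpk
    rw [hZ] at hp
    exact hp.2 (hnk p p hpk (by rw [sub_self, norm_zero]; positivity))
  have hZΩk : Z ⊆ Ω \ k := fun p hp => ⟨hZΩ hp, hZk p hp⟩
  have hΩk : IsOpen (Ω \ k) := hΩ.sdiff hk.isClosed
  -- lower bound on `Z`
  obtain ⟨cZ, hcZ, hcZm⟩ : ∃ cZ : ℝ, 0 < cZ ∧ ∀ p ∈ Z, ∀ v : E d,
      cZ * ‖v‖ ^ 2 ≤ extDeriv β p ![v, Js p v] := low_comp hZc (fun p hp => by
        have h1 : ContDiffAt ℝ ∞ β p := hβ.contDiffAt (hΩk.mem_nhds (hZΩk hp))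
        exact ext_contAt h1) (fun p hp => hJc.continuousAt (hΩ.mem_nhds (hZΩ hp)))
        fun p hp v hv => hpos p (hZΩk hp) v hv
  obtain ⟨DΘ, hDΘ, hDΘm⟩ := Pool.Agent.Y44.SY.exists_max hZc
    ((hΘs.continuous_fderiv (by simp)).norm.continuousOn (s := Z))
  obtain ⟨G0, hG0⟩ : ∃ G0, G0 = (κ ^ 2)⁻¹ + A * (κ ^ 2) ^ (b₀ - 1) := ⟨_, rfl⟩
  have hG00 : 0 < G0 := by rw [hG0]; positivity
  obtain ⟨CQ, hCQ⟩ : ∃ CQ, CQ = 4 * K * ((2 * K ^ 2 + DΘ * R) * G0 + G0) := ⟨_, rfl⟩
  have hCQ0 : 0 < CQ := by rw [hCQ]; positivity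
  obtain ⟨A', hA'⟩ : ∃ A', A' = (2 * K * D + 1) / c₁ := ⟨_, rfl⟩
  have hA'0 : 0 < A' := by rw [hA']; positivity
  obtain ⟨δ, hδ, hδκ, hδR, hδZ⟩ : ∃ δ : ℝ, 0 < δ ∧ δ ≤ κ / 2 ∧ 4 * δ ≤ R ∧
      A' * δ * (CQ * K) ≤ cZ / 2 := by
    refine ⟨min (min (κ / 2) (R / 4)) (cZ / (2 * (A' * (CQ * K)))), by positivity,
      (min_le_left _ _).trans (min_le_left _ _), ?_, ?_⟩
    · have := (min_le_left (min (κ / 2) (R / 4)) (cZ / (2 * (A' * (CQ * K))))).trans
        (min_le_right _ _)
      linarith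
    · have := min_le_right (min (κ / 2) (R / 4)) (cZ / (2 * (A' * (CQ * K))))
      rw [le_div_iff₀ (by positivity)] at this
      linarith
  obtain ⟨n, x, r, b, hxk, hr, hb, hcv, hsum, hbd⟩ := hcov δ hδ
  have hrδ : ∀ i, r i ≤ δ := by
    intro i
    refine le_trans ?_ hsum
    have h1 : r i * (1 + b i) ≤ ∑ i, r i * (1 + b i) :=
      Finset.single_le_sum (f := fun i => r i * (1 + b i))
        (fun j _ => mul_nonneg (hr j).le (by have := hb j; linarith)) (Finset.mem_univ i)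
    refine le_trans ?_ h1
    have := mul_nonneg (hr i).le (hb i)
    linarith
  choose ψ hψ using fun i => hSB (x i) (r i) (hr i)
  obtain ⟨h, hh⟩ : ∃ h : Fin n → E d → ℝ,
      h = fun i p => Θ p * gp A b₀ (Js (x i)) (x i) (r i) p := ⟨_, rfl⟩
  have hxΩ : ∀ i, x i ∈ Ω := fun i => hkΩ (hxk i)
  have hgs : ∀ i, ContDiff ℝ ∞ (gp A b₀ (Js (x i)) (x i) (r i)) := fun i =>
    gp_smooth A b₀ _ _ (hr i)
  have hhs : ∀ i, ContDiff ℝ ∞ (h i) := by
    intro i
    rw [hh]
    exact hΘs.mul (hgs i)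
  obtain ⟨lam, hlam⟩ : ∃ lam : Fin n → ℝ, lam = fun i => A' * (r i * (1 + b i)) := ⟨_, rfl⟩
  have hlam0 : ∀ i, 0 < lam i := by
    intro i
    rw [hlam]
    have h1 := hr i
    have h2 := hb i
    have : 0 < r i * (1 + b i) := mul_pos h1 (by linarith)
    positivity
  have hlamsum : ∑ i, lam i ≤ A' * δ := by
    rw [hlam, ← Finset.mul_sum]
    exact mul_le_mul_of_nonneg_left hsum hA'0.le
  obtain ⟨T, hT⟩ : ∃ T : E d → Al d 2, T = ∑ i, lam i • tau (Js (x i)) (x i) (h i) := ⟨_, rfl⟩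
  have hTSC : SC Ω T := by
    rw [hT]
    exact SC.sum hΩ _ fun i _ => SC.smul ⟨(tau_smooth (hhs i)).contDiffOn,
      fun p _ => tau_closed (hhs i) p⟩ _
  have hTv : ∀ (p v w : E d), T p ![v, w] = ∑ i, lam i * tau (Js (x i)) (x i) (h i) p ![v, w] := by
    intro p v w
    rw [hT, Finset.sum_apply, ContinuousAlternatingMap.sum_apply]
    rfl
  -- the primitive after cutting off
  have hP : ContDiffOn ℝ ∞ (fun p => pc ψ p • β p) Ω := by
    intro p hp
    by_cases hpk : ∃ i, ‖p - x i‖ < r i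
    · obtain ⟨i, hi⟩ := hpk
      have h1 : (fun p => pc ψ p • β p) =ᶠ[𝓝 p] fun _ => 0 := by
        filter_upwards [pc_zero hψ hi] with y hy
        rw [hy, zero_smul]
      exact (contDiffAt_const.congr_of_eventuallyEq h1).contDiffWithinAt
    · have hpk' : p ∉ k := fun h => hpk (hcv p h)
      exact ((pc_smooth hψ).contDiffAt.smul (hβ.contDiffAt (hΩk.mem_nhds ⟨hp, hpk'⟩))).contDiffWithinAt
  have hPSC : SC Ω (extDeriv fun p => pc ψ p • β p) := by
    constructor
    · have h1 : ContDiffOn ℝ ∞ (fderiv ℝ (fun p => pc ψ p • β p)) Ω :=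
        hP.fderiv_of_isOpen hΩ (by simp)
      exact (ContinuousAlternatingMap.alternatizeUncurryFinCLM ℝ (E d) ℝ).contDiff.comp_contDiffOn h1
    · intro p hp
      exact extDeriv_extDeriv_apply (hP.contDiffAt (hΩ.mem_nhds hp)) smooth2
  have hall : SC Ω ((extDeriv fun p => pc ψ p • β p) + T) := hPSC.add hΩ hTSC
  have hout : ∀ p, p ∉ Metric.cthickening (3 * κ) k →
      ((extDeriv fun p => pc ψ p • β p) + T) p = extDeriv β p := by
    intro p hp
    have h1 : (fun p => pc ψ p • β p) =ᶠ[𝓝 p] β := by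
      filter_upwards [Metric.isClosed_cthickening.isOpen_compl.mem_nhds hp] with y hy
      have h2 : pc ψ y = 1 := by
        refine pc_one hψ fun i => ?_
        by_contra hlt
        refine hy (Metric.mem_cthickening_of_dist_le y (x i) _ _ (hxk i) ?_)
        rw [dist_eq_norm]
        linarith [not_le.1 hlt, hrδ i]
      rw [h2, one_smul]
    have h3 : T p = 0 := by
      rw [hT, Finset.sum_apply]
      refine Finset.sum_eq_zero fun i _ => ?_
      have h4 := (tau_zero (J := Js (x i)) (c := x i) (hhs i)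
        (S := Metric.cthickening (3 * κ) k) Metric.isClosed_cthickening (fun q hq => by
          rw [hh]
          dsimp only
          have h5 : Θ q = 0 := hΘ0 fun h => hq (Metric.thickening_subset_cthickening _ _ h)
          rw [h5, zero_mul]) hp).1
      rw [Pi.smul_apply, h4, smul_zero]
    rw [Pi.add_apply, h3, add_zero]
    exact ext_congr h1
  refine ⟨(extDeriv fun p => pc ψ p • β p) + T, Metric.cthickening (3 * κ) k, hk.cthickening,
    hκΩ, Metric.self_subset_cthickening k, hall.1, hall.2, ?_, ?_⟩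
  · intro p hp
    exact hout p hp.2
  · intro p hp v hv
    have hv2 : 0 < ‖v‖ ^ 2 := by
      have := norm_pos_iff.2 hv
      positivity
    by_cases hpQ : p ∈ Metric.cthickening (3 * κ) k
    swap
    · rw [hout p hpQ]
      exact hpos p ⟨hp, fun h => hpQ (Metric.self_subset_cthickening k h)⟩ v hv
    have hval : ((extDeriv fun p => pc ψ p • β p) + T) p ![v, Js p v] =
        extDeriv (fun p => pc ψ p • β p) p ![v, Js p v] + T p ![v, Js p v] := rfl
    have hJv : ‖Js p v‖ ≤ K * ‖v‖ := by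
      refine ((Js p).le_opNorm v).trans (mul_le_mul_of_nonneg_right ?_ (norm_nonneg _))
      have := hJK p hp
      linarith
    by_cases hp2 : p ∈ Metric.thickening (2 * κ) k
    swap
    · -- the shell
      have hpZ : p ∈ Z := by
        rw [hZ]
        exact ⟨hpQ, hp2⟩
      have hfar : ∀ i, 2 * κ ≤ ‖p - x i‖ := by
        intro i
        by_contra hlt
        exact hp2 (hnk p (x i) (hxk i) (not_le.1 hlt))
      have hβd : DifferentiableAt ℝ β p :=
        (hβ.contDiffAt (hΩk.mem_nhds (hZΩk hpZ))).differentiableAt (by simp)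
      have h1 : extDeriv (fun p => pc ψ p • β p) p ![v, Js p v] =
          extDeriv β p ![v, Js p v] := by
        rw [ext_cut ((pc_smooth hψ).differentiable (by simp) p) hβd,
          pc_one hψ fun i => by linarith [hfar i, hrδ i], one_mul]
        have h2 : fderiv ℝ (pc ψ) p = 0 := by
          rw [← norm_le_zero_iff]
          refine (pc_fderiv hψ p).trans (le_of_eq ?_)
          refine Finset.sum_eq_zero fun i _ => ?_
          rw [(hψ i).fd_out (by linarith [hfar i, hrδ i]), norm_zero]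
        rw [h2]
        simp
      have h3 := hcZm p hpZ v
      have h4 : -(cZ / 2 * ‖v‖ ^ 2) ≤ T p ![v, Js p v] := by
        rw [hTv]
        have h5 : ∀ i ∈ (Finset.univ : Finset (Fin n)), -(lam i * (CQ * K * ‖v‖ ^ 2)) ≤
            lam i * tau (Js (x i)) (x i) (h i) p ![v, Js p v] := by
          intro i _
          have h6 : ‖tau (Js (x i)) (x i) (h i) p‖ ≤ CQ := by
            refine (tau_normK (hhs i) (hJK _ (hxΩ i)) p).trans ?_
            have hg0 := gp_pos b₀ hA (Js (x i)) (x i) (hr i) p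
            have hg1 : gp A b₀ (Js (x i)) (x i) (r i) p ≤ G0 := by
              rw [hG0]
              exact gp_le hA hb1 hκ _ _ (hr i) (by linarith [hfar i])
            have hg2 := gp_grad hA hb0 hb1 (hJK _ (hxΩ i)) (x i) (hr i) p
            have hΘp := hΘm p
            have hfd : fderiv ℝ (h i) p = Θ p • fderiv ℝ (gp A b₀ (Js (x i)) (x i) (r i)) p +
                gp A b₀ (Js (x i)) (x i) (r i) p • fderiv ℝ Θ p := by
              have e1 : HasFDerivAt Θ (fderiv ℝ Θ p) p :=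
                (hΘs.differentiable (by simp) p).hasFDerivAt
              have e2 : HasFDerivAt (gp A b₀ (Js (x i)) (x i) (r i))
                  (fderiv ℝ (gp A b₀ (Js (x i)) (x i) (r i)) p) p :=
                ((hgs i).differentiable (by simp) p).hasFDerivAt
              rw [hh]
              exact (e1.mul e2).fderiv
            have h7 : ‖fderiv ℝ (h i) p‖ * ‖p - x i‖ ≤ (2 * K ^ 2 + DΘ * R) * G0 := by
              have h8 : ‖fderiv ℝ (h i) p‖ ≤ ‖fderiv ℝ (gp A b₀ (Js (x i)) (x i) (r i)) p‖ +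
                  gp A b₀ (Js (x i)) (x i) (r i) p * DΘ := by
                rw [hfd]
                refine (norm_add_le _ _).trans (add_le_add ?_ ?_)
                · rw [norm_smul, Real.norm_of_nonneg hΘp.1]
                  exact mul_le_of_le_one_left (norm_nonneg _) hΘp.2
                · rw [norm_smul, Real.norm_of_nonneg hg0.le]
                  exact mul_le_mul_of_nonneg_left (hDΘm p hpZ) hg0.le
              have h9 := mul_le_mul_of_nonneg_right h8 (norm_nonneg (p - x i))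
              have h10 : ‖p - x i‖ ≤ R := (hdiam p hp (x i) (hxΩ i)).le
              refine h9.trans ?_
              have h11 : gp A b₀ (Js (x i)) (x i) (r i) p * DΘ * ‖p - x i‖ ≤ G0 * DΘ * R := by
                gcongr
              have h12 : 2 * K ^ 2 * gp A b₀ (Js (x i)) (x i) (r i) p ≤ 2 * K ^ 2 * G0 := by
                gcongr
              calc _ = ‖fderiv ℝ (gp A b₀ (Js (x i)) (x i) (r i)) p‖ * ‖p - x i‖ +
                    gp A b₀ (Js (x i)) (x i) (r i) p * DΘ * ‖p - x i‖ := by ring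
                _ ≤ 2 * K ^ 2 * G0 + G0 * DΘ * R := add_le_add (hg2.trans h12) h11
                _ = _ := by ring
            have h13 : |h i p| ≤ G0 := by
              rw [hh]
              dsimp only
              rw [abs_of_nonneg (mul_nonneg hΘp.1 hg0.le)]
              exact (mul_le_of_le_one_left hg0.le hΘp.2).trans hg1
            rw [hCQ]
            gcongr
          have h14 := pair_le (tau (Js (x i)) (x i) (h i) p) (Js p) v
            (show ‖Js p‖ ≤ K by have := hJK p hp; linarith) h6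
          have h15 := mul_le_mul_of_nonneg_left (abs_le.1 h14).1 (hlam0 i).le
          linarith
        refine le_trans ?_ (Finset.sum_le_sum h5)
        rw [Finset.sum_neg_distrib, ← Finset.sum_mul]
        have h16 : (∑ i, lam i) * (CQ * K * ‖v‖ ^ 2) ≤ A' * δ * (CQ * K * ‖v‖ ^ 2) := by
          gcongr
        have h17 := mul_le_mul_of_nonneg_right hδZ hv2.le
        linarith
      rw [hval, h1]
      have h18 := mul_pos hcZ hv2
      linarith
    · -- near `k`
      have hτ : ∀ i, tau (Js (x i)) (x i) (h i) p =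
          tau (Js (x i)) (x i) (gp A b₀ (Js (x i)) (x i) (r i)) p := by
        intro i
        refine tau_congr (hhs i) (hgs i) ?_
        filter_upwards [Metric.isOpen_thickening.mem_nhds hp2] with y hy
        rw [hh]
        dsimp only
        have h1 : Θ y = 1 := hΘ1 (Metric.thickening_subset_cthickening _ _ hy)
        rw [h1, one_mul]
      have hτp : ∀ i, 0 ≤ tau (Js (x i)) (x i) (h i) p ![v, Js p v] ∧
          (‖p - x i‖ ≤ 2 * r i → c₁ / r i ^ 2 * ‖v‖ ^ 2 ≤
            tau (Js (x i)) (x i) (h i) p ![v, Js p v]) := by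
        intro i
        rw [hτ i]
        exact hpsh (x i) (Js (x i)) (hJ _ (hxΩ i)) (hJK _ (hxΩ i)) p (Js p)
          (hdiam p hp _ (hxΩ i)) (hJL p hp _ (hxΩ i)) (r i) (hr i)
          (by linarith [hrδ i]) v
      by_cases hex : ∃ i, ‖p - x i‖ < r i
      · obtain ⟨i, hi⟩ := hex
        have h1 : extDeriv (fun p => pc ψ p • β p) p = 0 := by
          have h2 : (fun p => pc ψ p • β p) =ᶠ[𝓝 p] fun _ => 0 := by
            filter_upwards [pc_zero hψ hi] with y hy
            rw [hy, zero_smul]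
          rw [ext_congr h2]
          unfold extDeriv
          rw [fderiv_const_apply]
          exact map_zero (ContinuousAlternatingMap.alternatizeUncurryFinCLM ℝ (E d) ℝ)
        have h3 : (0 : Al d 2) ![v, Js p v] = 0 := rfl
        rw [hval, h1, h3, zero_add, hTv]
        refine Finset.sum_pos' (fun j _ => mul_nonneg (hlam0 j).le (hτp j).1)
          ⟨i, Finset.mem_univ i, mul_pos (hlam0 i) ?_⟩
        refine lt_of_lt_of_le ?_ ((hτp i).2 (by linarith [hr i]))
        have := hr i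
        positivity
      · have hpk : p ∉ k := fun h => hex (hcv p h)
        have hge : ∀ j, r j ≤ ‖p - x j‖ := fun j => by
          by_contra hlt
          exact hex ⟨j, not_le.1 hlt⟩
        have hβd : DifferentiableAt ℝ β p :=
          (hβ.contDiffAt (hΩk.mem_nhds ⟨hp, hpk⟩)).differentiableAt (by simp)
        have hs := hpos p ⟨hp, hpk⟩ v hv
        have hχ0 := pc_nonneg hψ p
        rw [hval, ext_cut ((pc_smooth hψ).differentiable (by simp) p) hβd, hTv]
        have hcut : -(∑ i, 2 * K * (‖fderiv ℝ (ψ i) p‖ * ‖β p‖) * ‖v‖ ^ 2) ≤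
            fderiv ℝ (pc ψ) p v * β p ![Js p v] - fderiv ℝ (pc ψ) p (Js p v) * β p ![v] := by
          have h1 := (abs_le.1 (cut_bound (χ := pc ψ) (β := β) (p := p) v (Js p v))).1
          refine le_trans ?_ h1
          rw [neg_le_neg_iff]
          have h2 := pc_fderiv hψ p
          have h3 : 2 * (‖fderiv ℝ (pc ψ) p‖ * ‖β p‖) * (‖v‖ * ‖Js p v‖) ≤
              2 * ((∑ i, ‖fderiv ℝ (ψ i) p‖) * ‖β p‖) * (‖v‖ * (K * ‖v‖)) := by
            gcongr
          refine h3.trans (le_of_eq ?_)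
          rw [← Finset.sum_mul, ← Finset.mul_sum, ← Finset.sum_mul]
          ring
        have hterm : ∀ i, 0 ≤ lam i * tau (Js (x i)) (x i) (h i) p ![v, Js p v] -
            2 * K * (‖fderiv ℝ (ψ i) p‖ * ‖β p‖) * ‖v‖ ^ 2 ∧ (‖p - x i‖ < 2 * r i →
            0 < lam i * tau (Js (x i)) (x i) (h i) p ![v, Js p v] -
            2 * K * (‖fderiv ℝ (ψ i) p‖ * ‖β p‖) * ‖v‖ ^ 2) := by
          intro i
          have hri := hr i
          have hbi := hb i
          have hpos' : ‖p - x i‖ < 2 * r i → 0 < lam i * tau (Js (x i)) (x i) (h i) p ![v, Js p v] -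
              2 * K * (‖fderiv ℝ (ψ i) p‖ * ‖β p‖) * ‖v‖ ^ 2 := by
            intro hi
            have h1 := mul_le_mul_of_nonneg_left ((hτp i).2 hi.le) (hlam0 i).le
            have h2 : lam i * (c₁ / r i ^ 2 * ‖v‖ ^ 2) =
                (2 * K * D + 1) * (1 + b i) / r i * ‖v‖ ^ 2 := by
              rw [hlam, hA']
              field_simp
            have h3 : ‖fderiv ℝ (ψ i) p‖ * ‖β p‖ ≤ D / r i * b i :=
              mul_le_mul ((hψ i).fd p) (hbd i p hp hi hge) (norm_nonneg _) (by positivity)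
            have h4 : 2 * K * (‖fderiv ℝ (ψ i) p‖ * ‖β p‖) * ‖v‖ ^ 2 ≤
                2 * K * (D / r i * b i) * ‖v‖ ^ 2 := by gcongr
            have h5 : 2 * K * (D / r i * b i) * ‖v‖ ^ 2 <
                (2 * K * D + 1) * (1 + b i) / r i * ‖v‖ ^ 2 := by
              refine mul_lt_mul_of_pos_right ?_ hv2
              rw [div_mul_eq_mul_div, ← mul_div_assoc]
              refine div_lt_div_of_pos_right ?_ hri
              nlinarith [mul_pos hK0 hD, mul_nonneg (mul_pos hK0 hD).le hbi]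
            linarith
          refine ⟨?_, hpos'⟩
          by_cases hi : ‖p - x i‖ < 2 * r i
          · exact (hpos' hi).le
          · rw [(hψ i).fd_out (not_lt.1 hi), norm_zero, zero_mul, mul_zero, zero_mul, sub_zero]
            exact mul_nonneg (hlam0 i).le (hτp i).1
        have hcomb : ∑ i, (lam i * tau (Js (x i)) (x i) (h i) p ![v, Js p v] -
            2 * K * (‖fderiv ℝ (ψ i) p‖ * ‖β p‖) * ‖v‖ ^ 2) =
            ∑ i, lam i * tau (Js (x i)) (x i) (h i) p ![v, Js p v] -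
            ∑ i, 2 * K * (‖fderiv ℝ (ψ i) p‖ * ‖β p‖) * ‖v‖ ^ 2 := Finset.sum_sub_distrib _ _
        by_cases hex2 : ∃ i, ‖p - x i‖ < 2 * r i
        · obtain ⟨i, hi⟩ := hex2
          have h1 : 0 < ∑ i, (lam i * tau (Js (x i)) (x i) (h i) p ![v, Js p v] -
              2 * K * (‖fderiv ℝ (ψ i) p‖ * ‖β p‖) * ‖v‖ ^ 2) :=
            Finset.sum_pos' (fun j _ => (hterm j).1) ⟨i, Finset.mem_univ i, (hterm i).2 hi⟩
          have h2 : 0 ≤ pc ψ p * extDeriv β p ![v, Js p v] := mul_nonneg hχ0 hs.le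
          linarith
        · have h1 : 0 ≤ ∑ i, (lam i * tau (Js (x i)) (x i) (h i) p ![v, Js p v] -
              2 * K * (‖fderiv ℝ (ψ i) p‖ * ‖β p‖) * ‖v‖ ^ 2) :=
            Finset.sum_nonneg fun j _ => (hterm j).1
          have h2 : pc ψ p = 1 := pc_one hψ fun i => by
            by_contra hlt
            exact hex2 ⟨i, not_le.1 hlt⟩
          rw [h2, one_mul]
          linarith

end Pool.Agent.Q235.SZ
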