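import Pool.Agent.Q235.SR.Lp

/-!
# Filling in a small set: the local construction for a primitive
-/

set_option autoImplicit false

open Set Filter Topology MeasureTheory
open scoped Manifold ContDiff Pointwise

noncomputable section

namespace Pool.Agent.Q235.SZ

open Pool.Agent.Y501.SY Pool.Agent.Y515.SY

variable {d : ℕ}

/-- the primitive of `tau` -/
def tau1 (J : E d →L[ℝ] E d) (c : E d) (h : E d → ℝ) : E d → Al d 1 :=
  fun p => (ContinuousAlternatingMap.ofSubsingletonLIE (𝕜 := ℝ) (E := E d) (F := ℝ)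
      (0 : Fin 1)) (h p • W J (p - c))

theorem tau1_ext (J : E d →L[ℝ] E d) (c : E d) (h : E d → ℝ) : extDeriv (tau1 J c h) = tau J c h :=
  rfl

theorem tau1_smooth {J : E d →L[ℝ] E d} {c : E d} {h : E d → ℝ} (hh : ContDiff ℝ ∞ h) :
    ContDiff ℝ ∞ (tau1 J c h) := al_smooth1 hh

theorem ext_sum1 {n : ℕ} {lam : Fin n → ℝ} {a : Fin n → E d → Al d 1}
    (ha : ∀ i, ContDiff ℝ ∞ (a i)) (p : E d) :
    extDeriv (∑ i, lam i • a i) p = ∑ i, lam i • extDeriv (a i) p := by
  have h1 : ∀ i ∈ (Finset.univ : Finset (Fin n)), DifferentiableAt ℝ (lam i • a i) p := fun i _ =>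
    ((ha i).differentiable (by simp) p).const_smul (lam i)
  have h2 : fderiv ℝ (∑ i, lam i • a i) p = ∑ i, fderiv ℝ (lam i • a i) p := fderiv_sum h1
  unfold extDeriv
  rw [h2]
  have h3 := map_sum (ContinuousAlternatingMap.alternatizeUncurryFinCLM ℝ (E d) ℝ)
    (fun i => fderiv ℝ (lam i • a i) p) (Finset.univ : Finset (Fin n))
  refine h3.trans (Finset.sum_congr rfl fun i _ => ?_)
  have h4 : fderiv ℝ (lam i • a i) p = lam i • fderiv ℝ (a i) p :=
    fderiv_const_smul ((ha i).differentiable (by simp) p) (lam i)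
  rw [h4]
  exact map_smul (ContinuousAlternatingMap.alternatizeUncurryFinCLM ℝ (E d) ℝ) (lam i) _

theorem lpc {K L a : ℝ} (hK1 : 1 ≤ K) (hL : 0 ≤ L) (ha : 0 < a) (ha1 : a ≤ 1) :
    ∃ R : ℝ, 0 < R ∧ ∀ (Ω k : Set (E d)) (s₀ : E d → Al d 2) (S : ℝ) (β : E d → Al d 1)
      (Js : E d → E d →L[ℝ] E d),
      ContDiffOn ℝ ∞ s₀ Ω → (∀ p ∈ Ω, ‖s₀ p‖ ≤ S) → IsOpen Ω → IsCompact k → k ⊆ Ω → (∀ p ∈ Ω, ∀ q ∈ Ω, ‖p - q‖ < R) →
      ContDiffOn ℝ ∞ β (Ω \ k) → ContinuousOn Js Ω → (∀ p ∈ Ω, ∀ v, Js p (Js p v) = -v) →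
      (∀ p ∈ Ω, 1 + ‖Js p‖ ≤ K) →
      (∀ p ∈ Ω, ∀ q ∈ Ω, ‖Js p - Js q‖ ≤ L * ‖p - q‖ ^ a) →
      (∀ p ∈ Ω \ k, ∀ v : E d, v ≠ 0 → 0 < (s₀ p + extDeriv β p) ![v, Js p v]) → Cov Ω k β →
      ∃ (b' : E d → Al d 1) (Q : Set (E d)), IsCompact Q ∧ Q ⊆ Ω ∧ k ⊆ Q ∧
        ContDiffOn ℝ ∞ b' Ω ∧ (∀ p, p ∉ Q → b' p = β p) ∧
        ∀ p ∈ Ω, ∀ v : E d, v ≠ 0 → 0 < (s₀ p + extDeriv b' p) ![v, Js p v] := by
  obtain ⟨R, A, b₀, c₁, hR, hA, hb0, hb1, hc₁, hpsh⟩ := psh_core (d := d) hK1 hL ha ha1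
  obtain ⟨D, hD, hSB⟩ := exists_SB d
  refine ⟨R, hR, ?_⟩
  intro Ω k s₀ S β Js hs₀ hS hΩ hk hkΩ hdiam hβ hJc hJ hJK hJL hpos hcov
  have hK0 : 0 < K := by linarith
  -- the thickenings
  obtain ⟨κ, hκ, hκΩ⟩ : ∃ κ : ℝ, 0 < κ ∧ Metric.cthickening (3 * κ) k ⊆ Ω := by
    obtain ⟨δ, hδ, h⟩ := hk.exists_cthickening_subset_open hΩ hkΩ
    refine ⟨δ / 3, by positivity, ?_⟩
    have : 3 * (δ / 3) = δ := by ring
    rwa [this]
  have hnk : ∀ p q : E d, q ∈ k → ‖p - q‖ < 2 * κ → p ∈ Metric.thickening (2 * κ) k :=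
    fun p q hq h => Metric.mem_thickening_iff.2 ⟨q, hq, by rwa [dist_eq_norm]⟩
  obtain ⟨Θ, hΘ0, hΘ1, hΘm⟩ := exists_contMDiffMap_zero_one_of_isClosed (n := (⊤ : ℕ∞)) 𝓘(ℝ, E d)
    (s := (Metric.thickening (3 * κ) k)ᶜ) (t := Metric.cthickening (2 * κ) k)
    Metric.isOpen_thickening.isClosed_compl Metric.isClosed_cthickening
    (disjoint_compl_left_iff_subset.2
      (Metric.cthickening_subset_thickening' (by positivity) (by linarith) k))
  have hΘs : ContDiff ℝ ∞ Θ := Θ.contMDiff.contDiff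
  obtain ⟨Z, hZ⟩ : ∃ Z, Z = Metric.cthickening (3 * κ) k \ Metric.thickening (2 * κ) k :=
    ⟨_, rfl⟩
  have hZc : IsCompact Z := by
    rw [hZ]
    exact hk.cthickening.diff Metric.isOpen_thickening
  have hZΩ : Z ⊆ Ω := by
    rw [hZ]
    exact sdiff_subset.trans hκΩ
  have hZk : ∀ p ∈ Z, p ∉ k := by
    intro p hp hpk
    rw [hZ] at hp
    exact hp.2 (hnk p p hpk (by rw [sub_self, norm_zero]; positivity))
  have hZΩk : Z ⊆ Ω \ k := fun p hp => ⟨hZΩ hp, hZk p hp⟩
  have hΩk : IsOpen (Ω \ k) := hΩ.sdiff hk.isClosed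
  -- lower bound on `Z`
  obtain ⟨cZ, hcZ, hcZm⟩ : ∃ cZ : ℝ, 0 < cZ ∧ ∀ p ∈ Z, ∀ v : E d,
      cZ * ‖v‖ ^ 2 ≤ (s₀ p + extDeriv β p) ![v, Js p v] := low_comp
        (s := fun p => s₀ p + extDeriv β p) hZc (fun p hp => by
        have h1 : ContDiffAt ℝ ∞ β p := hβ.contDiffAt (hΩk.mem_nhds (hZΩk hp))
        exact ((hs₀.contDiffAt (hΩ.mem_nhds (hZΩ hp))).continuousAt).add (ext_contAt h1)) (fun p hp => hJc.continuousAt (hΩ.mem_nhds (hZΩ hp)))
        fun p hp v hv => hpos p (hZΩk hp) v hv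
  obtain ⟨DΘ, hDΘ, hDΘm⟩ := Pool.Agent.Y44.SY.exists_max hZc
    ((hΘs.continuous_fderiv (by simp)).norm.continuousOn (s := Z))
  obtain ⟨G0, hG0⟩ : ∃ G0, G0 = (κ ^ 2)⁻¹ + A * (κ ^ 2) ^ (b₀ - 1) := ⟨_, rfl⟩
  have hG00 : 0 < G0 := by rw [hG0]; positivity
  obtain ⟨CQ, hCQ⟩ : ∃ CQ, CQ = 4 * K * ((2 * K ^ 2 + DΘ * R) * G0 + G0) := ⟨_, rfl⟩
  have hCQ0 : 0 < CQ := by rw [hCQ]; positivity
  obtain ⟨A', hA'⟩ : ∃ A', A' = (2 * K * D + 1) / c₁ := ⟨_, rfl⟩
  have hA'0 : 0 < A' := by rw [hA']; positivity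
  obtain ⟨S', hS', hSS'⟩ : ∃ S' : ℝ, 0 ≤ S' ∧ S ≤ S' := ⟨|S|, abs_nonneg S, le_abs_self S⟩
  obtain ⟨δ, hδ, hδκ, hδR, hδZ, hδS⟩ : ∃ δ : ℝ, 0 < δ ∧ δ ≤ κ / 2 ∧ 4 * δ ≤ R ∧
      A' * δ * (CQ * K) ≤ cZ / 2 ∧ S' * K * δ < 1 := by
    obtain ⟨δ', hδ', h1, h2, h3⟩ : ∃ δ : ℝ, 0 < δ ∧ δ ≤ κ / 2 ∧ 4 * δ ≤ R ∧
        A' * δ * (CQ * K) ≤ cZ / 2 := by
      refine ⟨min (min (κ / 2) (R / 4)) (cZ / (2 * (A' * (CQ * K)))), by positivity,
        (min_le_left _ _).trans (min_le_left _ _), ?_, ?_⟩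
      · have := (min_le_left (min (κ / 2) (R / 4)) (cZ / (2 * (A' * (CQ * K))))).trans
          (min_le_right _ _)
        linarith
      · have := min_le_right (min (κ / 2) (R / 4)) (cZ / (2 * (A' * (CQ * K))))
        rw [le_div_iff₀ (by positivity)] at this
        linarith
    refine ⟨min δ' (1 / (S' * K + 1)), by positivity, (min_le_left _ _).trans h1, ?_, ?_, ?_⟩
    · have := min_le_left δ' (1 / (S' * K + 1))
      linarith
    · refine le_trans ?_ h3
      have := min_le_left δ' (1 / (S' * K + 1))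
      gcongr
    · have h4 := min_le_right δ' (1 / (S' * K + 1))
      rw [le_div_iff₀ (by positivity)] at h4
      have h5 : 0 < min δ' (1 / (S' * K + 1)) := by positivity
      linarith
  obtain ⟨n, x, r, b, hxk, hr, hb, hcv, hsum, hbd⟩ := hcov δ hδ
  have hrδ : ∀ i, r i ≤ δ := by
    intro i
    refine le_trans ?_ hsum
    have h1 : r i * (1 + b i) ≤ ∑ i, r i * (1 + b i) :=
      Finset.single_le_sum (f := fun i => r i * (1 + b i))
        (fun j _ => mul_nonneg (hr j).le (by have := hb j; linarith)) (Finset.mem_univ i)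
    refine le_trans ?_ h1
    have := mul_nonneg (hr i).le (hb i)
    linarith
  choose ψ hψ using fun i => hSB (x i) (r i) (hr i)
  obtain ⟨h, hh⟩ : ∃ h : Fin n → E d → ℝ,
      h = fun i p => Θ p * gp A b₀ (Js (x i)) (x i) (r i) p := ⟨_, rfl⟩
  have hxΩ : ∀ i, x i ∈ Ω := fun i => hkΩ (hxk i)
  have hgs : ∀ i, ContDiff ℝ ∞ (gp A b₀ (Js (x i)) (x i) (r i)) := fun i =>
    gp_smooth A b₀ _ _ (hr i)
  have hhs : ∀ i, ContDiff ℝ ∞ (h i) := by
    intro i
    rw [hh]
    exact hΘs.mul (hgs i)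
  obtain ⟨lam, hlam⟩ : ∃ lam : Fin n → ℝ, lam = fun i => A' * (r i * (1 + b i)) := ⟨_, rfl⟩
  have hlam0 : ∀ i, 0 < lam i := by
    intro i
    rw [hlam]
    have h1 := hr i
    have h2 := hb i
    have : 0 < r i * (1 + b i) := mul_pos h1 (by linarith)
    positivity
  have hlamsum : ∑ i, lam i ≤ A' * δ := by
    rw [hlam, ← Finset.mul_sum]
    exact mul_le_mul_of_nonneg_left hsum hA'0.le
  obtain ⟨T, hT⟩ : ∃ T : E d → Al d 2, T = ∑ i, lam i • tau (Js (x i)) (x i) (h i) := ⟨_, rfl⟩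
  obtain ⟨T1, hT1⟩ : ∃ T1 : E d → Al d 1, T1 = ∑ i, lam i • tau1 (Js (x i)) (x i) (h i) :=
    ⟨_, rfl⟩
  have hT1s : ContDiff ℝ ∞ T1 := by
    have h1 : T1 = fun p => ∑ i, lam i • tau1 (Js (x i)) (x i) (h i) p := by
      rw [hT1]
      funext p
      rw [Finset.sum_apply]
      rfl
    rw [h1]
    exact ContDiff.sum fun i _ => (tau1_smooth (hhs i)).const_smul (lam i)
  have hT1e : ∀ p, extDeriv T1 p = T p := by
    intro p
    rw [hT1, ext_sum1 (fun i => tau1_smooth (hhs i)) p, hT, Finset.sum_apply]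
    rfl
  have hTv : ∀ (p v w : E d), T p ![v, w] = ∑ i, lam i * tau (Js (x i)) (x i) (h i) p ![v, w] := by
    intro p v w
    rw [hT, Finset.sum_apply, ContinuousAlternatingMap.sum_apply]
    rfl
  -- the primitive after cutting off
  have hP : ContDiffOn ℝ ∞ (fun p => pc ψ p • β p) Ω := by
    intro p hp
    by_cases hpk : ∃ i, ‖p - x i‖ < r i
    · obtain ⟨i, hi⟩ := hpk
      have h1 : (fun p => pc ψ p • β p) =ᶠ[𝓝 p] fun _ => 0 := by
        filter_upwards [pc_zero hψ hi] with y hy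
        rw [hy, zero_smul]
      exact (contDiffAt_const.congr_of_eventuallyEq h1).contDiffWithinAt
    · have hpk' : p ∉ k := fun h => hpk (hcv p h)
      exact ((pc_smooth hψ).contDiffAt.smul (hβ.contDiffAt (hΩk.mem_nhds ⟨hp, hpk'⟩))).contDiffWithinAt
  obtain ⟨b', hb'⟩ : ∃ b' : E d → Al d 1, b' = (fun p => pc ψ p • β p) + T1 := ⟨_, rfl⟩
  have hbs : ContDiffOn ℝ ∞ b' Ω := by
    rw [hb']
    exact hP.add hT1s.contDiffOn
  have hbe : ∀ p ∈ Ω, extDeriv b' p = extDeriv (fun p => pc ψ p • β p) p + T p := by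
    intro p hp
    rw [hb', ← hT1e p]
    exact extDeriv_add ((hP.contDiffAt (hΩ.mem_nhds hp)).differentiableAt (by simp))
      (hT1s.differentiable (by simp) p)
  have hout : ∀ p, p ∉ Metric.cthickening (3 * κ) k → b' p = β p := by
    intro p hp
    have h2 : pc ψ p = 1 := by
      refine pc_one hψ fun i => ?_
      by_contra hlt
      refine hp (Metric.mem_cthickening_of_dist_le p (x i) _ _ (hxk i) ?_)
      rw [dist_eq_norm]
      linarith [not_le.1 hlt, hrδ i]
    have h3 : T1 p = 0 := by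
      rw [hT1, Finset.sum_apply]
      refine Finset.sum_eq_zero fun i _ => ?_
      have h5 : h i p = 0 := by
        rw [hh]
        dsimp only
        have h5 : Θ p = 0 := hΘ0 fun h => hp (Metric.thickening_subset_cthickening _ _ h)
        rw [h5, zero_mul]
      have h4 : tau1 (Js (x i)) (x i) (h i) p = 0 := by
        unfold tau1
        rw [h5, zero_smul]
        exact map_zero _
      rw [Pi.smul_apply, h4, smul_zero]
    rw [hb', Pi.add_apply, h3, add_zero, h2, one_smul]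
  have hs0 : ∀ p ∈ Ω, ∀ v : E d, |s₀ p ![v, Js p v]| ≤ S' * K * ‖v‖ ^ 2 := fun p hp v =>
    pair_le (s₀ p) (Js p) v (show ‖Js p‖ ≤ K by have := hJK p hp; linarith)
      ((hS p hp).trans hSS')
  refine ⟨b', Metric.cthickening (3 * κ) k, hk.cthickening,
    hκΩ, Metric.self_subset_cthickening k, hbs, hout, ?_⟩
  · intro p hp v hv
    have hv2 : 0 < ‖v‖ ^ 2 := by
      have := norm_pos_iff.2 hv
      positivity
    by_cases hpQ : p ∈ Metric.cthickening (3 * κ) k
    swap
    · have h1 : b' =ᶠ[𝓝 p] β := by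
        filter_upwards [Metric.isClosed_cthickening.isOpen_compl.mem_nhds hpQ] with y hy
        exact hout y hy
      rw [ext_congr h1]
      exact hpos p ⟨hp, fun h => hpQ (Metric.self_subset_cthickening k h)⟩ v hv
    have hval : (s₀ p + extDeriv b' p) ![v, Js p v] = s₀ p ![v, Js p v] +
        (extDeriv (fun p => pc ψ p • β p) p ![v, Js p v] + T p ![v, Js p v]) := by
      rw [hbe p hp]
      rfl
    have hJv : ‖Js p v‖ ≤ K * ‖v‖ := by
      refine ((Js p).le_opNorm v).trans (mul_le_mul_of_nonneg_right ?_ (norm_nonneg _))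
      have := hJK p hp
      linarith
    by_cases hp2 : p ∈ Metric.thickening (2 * κ) k
    swap
    · -- the shell
      have hpZ : p ∈ Z := by
        rw [hZ]
        exact ⟨hpQ, hp2⟩
      have hfar : ∀ i, 2 * κ ≤ ‖p - x i‖ := by
        intro i
        by_contra hlt
        exact hp2 (hnk p (x i) (hxk i) (not_le.1 hlt))
      have hβd : DifferentiableAt ℝ β p :=
        (hβ.contDiffAt (hΩk.mem_nhds (hZΩk hpZ))).differentiableAt (by simp)
      have h1 : extDeriv (fun p => pc ψ p • β p) p ![v, Js p v] =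
          extDeriv β p ![v, Js p v] := by
        rw [ext_cut ((pc_smooth hψ).differentiable (by simp) p) hβd,
          pc_one hψ fun i => by linarith [hfar i, hrδ i], one_mul]
        have h2 : fderiv ℝ (pc ψ) p = 0 := by
          rw [← norm_le_zero_iff]
          refine (pc_fderiv hψ p).trans (le_of_eq ?_)
          refine Finset.sum_eq_zero fun i _ => ?_
          rw [(hψ i).fd_out (by linarith [hfar i, hrδ i]), norm_zero]
        rw [h2]
        simp
      have h3 := hcZm p hpZ v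
      have h3' : (s₀ p + extDeriv β p) ![v, Js p v] = s₀ p ![v, Js p v] +
        extDeriv β p ![v, Js p v] := rfl
      have h4 : -(cZ / 2 * ‖v‖ ^ 2) ≤ T p ![v, Js p v] := by
        rw [hTv]
        have h5 : ∀ i ∈ (Finset.univ : Finset (Fin n)), -(lam i * (CQ * K * ‖v‖ ^ 2)) ≤
            lam i * tau (Js (x i)) (x i) (h i) p ![v, Js p v] := by
          intro i _
          have h6 : ‖tau (Js (x i)) (x i) (h i) p‖ ≤ CQ := by
            refine (tau_normK (hhs i) (hJK _ (hxΩ i)) p).trans ?_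
            have hg0 := gp_pos b₀ hA (Js (x i)) (x i) (hr i) p
            have hg1 : gp A b₀ (Js (x i)) (x i) (r i) p ≤ G0 := by
              rw [hG0]
              exact gp_le hA hb1 hκ _ _ (hr i) (by linarith [hfar i])
            have hg2 := gp_grad hA hb0 hb1 (hJK _ (hxΩ i)) (x i) (hr i) p
            have hΘp := hΘm p
            have hfd : fderiv ℝ (h i) p = Θ p • fderiv ℝ (gp A b₀ (Js (x i)) (x i) (r i)) p +
                gp A b₀ (Js (x i)) (x i) (r i) p • fderiv ℝ Θ p := by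
              have e1 : HasFDerivAt Θ (fderiv ℝ Θ p) p :=
                (hΘs.differentiable (by simp) p).hasFDerivAt
              have e2 : HasFDerivAt (gp A b₀ (Js (x i)) (x i) (r i))
                  (fderiv ℝ (gp A b₀ (Js (x i)) (x i) (r i)) p) p :=
                ((hgs i).differentiable (by simp) p).hasFDerivAt
              rw [hh]
              exact (e1.mul e2).fderiv
            have h7 : ‖fderiv ℝ (h i) p‖ * ‖p - x i‖ ≤ (2 * K ^ 2 + DΘ * R) * G0 := by
              have h8 : ‖fderiv ℝ (h i) p‖ ≤ ‖fderiv ℝ (gp A b₀ (Js (x i)) (x i) (r i)) p‖ +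
                  gp A b₀ (Js (x i)) (x i) (r i) p * DΘ := by
                rw [hfd]
                refine (norm_add_le _ _).trans (add_le_add ?_ ?_)
                · rw [norm_smul, Real.norm_of_nonneg hΘp.1]
                  exact mul_le_of_le_one_left (norm_nonneg _) hΘp.2
                · rw [norm_smul, Real.norm_of_nonneg hg0.le]
                  exact mul_le_mul_of_nonneg_left (hDΘm p hpZ) hg0.le
              have h9 := mul_le_mul_of_nonneg_right h8 (norm_nonneg (p - x i))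
              have h10 : ‖p - x i‖ ≤ R := (hdiam p hp (x i) (hxΩ i)).le
              refine h9.trans ?_
              have h11 : gp A b₀ (Js (x i)) (x i) (r i) p * DΘ * ‖p - x i‖ ≤ G0 * DΘ * R := by
                gcongr
              have h12 : 2 * K ^ 2 * gp A b₀ (Js (x i)) (x i) (r i) p ≤ 2 * K ^ 2 * G0 := by
                gcongr
              calc _ = ‖fderiv ℝ (gp A b₀ (Js (x i)) (x i) (r i)) p‖ * ‖p - x i‖ +
                    gp A b₀ (Js (x i)) (x i) (r i) p * DΘ * ‖p - x i‖ := by ring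
                _ ≤ 2 * K ^ 2 * G0 + G0 * DΘ * R := add_le_add (hg2.trans h12) h11
                _ = _ := by ring
            have h13 : |h i p| ≤ G0 := by
              rw [hh]
              dsimp only
              rw [abs_of_nonneg (mul_nonneg hΘp.1 hg0.le)]
              exact (mul_le_of_le_one_left hg0.le hΘp.2).trans hg1
            rw [hCQ]
            gcongr
          have h14 := pair_le (tau (Js (x i)) (x i) (h i) p) (Js p) v
            (show ‖Js p‖ ≤ K by have := hJK p hp; linarith) h6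
          have h15 := mul_le_mul_of_nonneg_left (abs_le.1 h14).1 (hlam0 i).le
          linarith
        refine le_trans ?_ (Finset.sum_le_sum h5)
        rw [Finset.sum_neg_distrib, ← Finset.sum_mul]
        have h16 : (∑ i, lam i) * (CQ * K * ‖v‖ ^ 2) ≤ A' * δ * (CQ * K * ‖v‖ ^ 2) := by
          gcongr
        have h17 := mul_le_mul_of_nonneg_right hδZ hv2.le
        linarith
      rw [hval, h1]
      have h18 := mul_pos hcZ hv2
      linarith
    · -- near `k`
      have hτ : ∀ i, tau (Js (x i)) (x i) (h i) p =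
          tau (Js (x i)) (x i) (gp A b₀ (Js (x i)) (x i) (r i)) p := by
        intro i
        refine tau_congr (hhs i) (hgs i) ?_
        filter_upwards [Metric.isOpen_thickening.mem_nhds hp2] with y hy
        rw [hh]
        dsimp only
        have h1 : Θ y = 1 := hΘ1 (Metric.thickening_subset_cthickening _ _ hy)
        rw [h1, one_mul]
      have hτp : ∀ i, 0 ≤ tau (Js (x i)) (x i) (h i) p ![v, Js p v] ∧
          (‖p - x i‖ ≤ 2 * r i → c₁ / r i ^ 2 * ‖v‖ ^ 2 ≤
            tau (Js (x i)) (x i) (h i) p ![v, Js p v]) := by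
        intro i
        rw [hτ i]
        exact hpsh (x i) (Js (x i)) (hJ _ (hxΩ i)) (hJK _ (hxΩ i)) p (Js p)
          (hdiam p hp _ (hxΩ i)) (hJL p hp _ (hxΩ i)) (r i) (hr i)
          (by linarith [hrδ i]) v
      have hs0p := abs_le.1 (hs0 p hp v)
      have hgain : ∀ i, S' * K * ‖v‖ ^ 2 < 1 / r i * ‖v‖ ^ 2 := by
        intro i
        refine mul_lt_mul_of_pos_right ?_ hv2
        rw [lt_div_iff₀ (hr i)]
        refine lt_of_le_of_lt ?_ hδS
        have := hrδ i
        gcongr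
      have hbig : ∀ i, ‖p - x i‖ ≤ 2 * r i → (2 * K * D + 1) * (1 + b i) / r i * ‖v‖ ^ 2 ≤
          lam i * tau (Js (x i)) (x i) (h i) p ![v, Js p v] := by
        intro i hi
        have hri := hr i
        have h1 := mul_le_mul_of_nonneg_left ((hτp i).2 hi) (hlam0 i).le
        have h2 : lam i * (c₁ / r i ^ 2 * ‖v‖ ^ 2) =
            (2 * K * D + 1) * (1 + b i) / r i * ‖v‖ ^ 2 := by
          rw [hlam, hA']
          field_simp
        linarith
      by_cases hex : ∃ i, ‖p - x i‖ < r i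
      · obtain ⟨i, hi⟩ := hex
        have h1 : extDeriv (fun p => pc ψ p • β p) p = 0 := by
          have h2 : (fun p => pc ψ p • β p) =ᶠ[𝓝 p] fun _ => 0 := by
            filter_upwards [pc_zero hψ hi] with y hy
            rw [hy, zero_smul]
          rw [ext_congr h2]
          unfold extDeriv
          rw [fderiv_const_apply]
          exact map_zero (ContinuousAlternatingMap.alternatizeUncurryFinCLM ℝ (E d) ℝ)
        have h3 : (0 : Al d 2) ![v, Js p v] = 0 := rfl
        rw [hval, h1, h3, zero_add, hTv]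
        have hri := hr i
        have hbi := hb i
        have h4 : lam i * tau (Js (x i)) (x i) (h i) p ![v, Js p v] ≤
            ∑ i, lam i * tau (Js (x i)) (x i) (h i) p ![v, Js p v] :=
          Finset.single_le_sum (f := fun i => lam i * tau (Js (x i)) (x i) (h i) p ![v, Js p v])
            (fun j _ => mul_nonneg (hlam0 j).le (hτp j).1) (Finset.mem_univ i)
        have h5 := hbig i (by linarith)
        have h6 : 1 / r i * ‖v‖ ^ 2 ≤ (2 * K * D + 1) * (1 + b i) / r i * ‖v‖ ^ 2 := by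
          refine mul_le_mul_of_nonneg_right ?_ hv2.le
          refine div_le_div_of_nonneg_right ?_ hri.le
          nlinarith [mul_pos hK0 hD, mul_nonneg (mul_pos hK0 hD).le hbi]
        have h7 := hgain i
        linarith [hs0p.1]
      · have hpk : p ∉ k := fun h => hex (hcv p h)
        have hge : ∀ j, r j ≤ ‖p - x j‖ := fun j => by
          by_contra hlt
          exact hex ⟨j, not_le.1 hlt⟩
        have hβd : DifferentiableAt ℝ β p :=
          (hβ.contDiffAt (hΩk.mem_nhds ⟨hp, hpk⟩)).differentiableAt (by simp)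
        have hs := hpos p ⟨hp, hpk⟩ v hv
        have hs' : (s₀ p + extDeriv β p) ![v, Js p v] = s₀ p ![v, Js p v] +
          extDeriv β p ![v, Js p v] := rfl
        rw [hs'] at hs
        have hχ0 := pc_nonneg hψ p
        have hχ1 := pc_le_one hψ p
        rw [hval, ext_cut ((pc_smooth hψ).differentiable (by simp) p) hβd, hTv]
        have hcut : -(∑ i, 2 * K * (‖fderiv ℝ (ψ i) p‖ * ‖β p‖) * ‖v‖ ^ 2) ≤
            fderiv ℝ (pc ψ) p v * β p ![Js p v] - fderiv ℝ (pc ψ) p (Js p v) * β p ![v] := by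
          have h1 := (abs_le.1 (cut_bound (χ := pc ψ) (β := β) (p := p) v (Js p v))).1
          refine le_trans ?_ h1
          rw [neg_le_neg_iff]
          have h2 := pc_fderiv hψ p
          have h3 : 2 * (‖fderiv ℝ (pc ψ) p‖ * ‖β p‖) * (‖v‖ * ‖Js p v‖) ≤
              2 * ((∑ i, ‖fderiv ℝ (ψ i) p‖) * ‖β p‖) * (‖v‖ * (K * ‖v‖)) := by
            gcongr
          refine h3.trans (le_of_eq ?_)
          rw [← Finset.sum_mul, ← Finset.mul_sum, ← Finset.sum_mul]
          ring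
        have hterm : ∀ i, 0 ≤ lam i * tau (Js (x i)) (x i) (h i) p ![v, Js p v] -
            2 * K * (‖fderiv ℝ (ψ i) p‖ * ‖β p‖) * ‖v‖ ^ 2 ∧ (‖p - x i‖ < 2 * r i →
            1 / r i * ‖v‖ ^ 2 ≤ lam i * tau (Js (x i)) (x i) (h i) p ![v, Js p v] -
            2 * K * (‖fderiv ℝ (ψ i) p‖ * ‖β p‖) * ‖v‖ ^ 2) := by
          intro i
          have hri := hr i
          have hbi := hb i
          have hpos' : ‖p - x i‖ < 2 * r i → 1 / r i * ‖v‖ ^ 2 ≤
              lam i * tau (Js (x i)) (x i) (h i) p ![v, Js p v] -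
              2 * K * (‖fderiv ℝ (ψ i) p‖ * ‖β p‖) * ‖v‖ ^ 2 := by
            intro hi
            have h1 := hbig i hi.le
            have h3 : ‖fderiv ℝ (ψ i) p‖ * ‖β p‖ ≤ D / r i * b i :=
              mul_le_mul ((hψ i).fd p) (hbd i p hp hi hge) (norm_nonneg _) (by positivity)
            have h4 : 2 * K * (‖fderiv ℝ (ψ i) p‖ * ‖β p‖) * ‖v‖ ^ 2 ≤
                2 * K * (D / r i * b i) * ‖v‖ ^ 2 := by gcongr
            have h5 : 1 / r i * ‖v‖ ^ 2 + 2 * K * (D / r i * b i) * ‖v‖ ^ 2 ≤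
                (2 * K * D + 1) * (1 + b i) / r i * ‖v‖ ^ 2 := by
              rw [← add_mul]
              refine mul_le_mul_of_nonneg_right ?_ hv2.le
              rw [div_mul_eq_mul_div, ← mul_div_assoc, ← add_div]
              refine div_le_div_of_nonneg_right ?_ hri.le
              nlinarith [mul_pos hK0 hD, mul_nonneg (mul_pos hK0 hD).le hbi]
            linarith
          refine ⟨?_, hpos'⟩
          by_cases hi : ‖p - x i‖ < 2 * r i
          · exact le_trans (by positivity) (hpos' hi)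
          · rw [(hψ i).fd_out (not_lt.1 hi), norm_zero, zero_mul, mul_zero, zero_mul, sub_zero]
            exact mul_nonneg (hlam0 i).le (hτp i).1
        have hcomb : ∑ i, (lam i * tau (Js (x i)) (x i) (h i) p ![v, Js p v] -
            2 * K * (‖fderiv ℝ (ψ i) p‖ * ‖β p‖) * ‖v‖ ^ 2) =
            ∑ i, lam i * tau (Js (x i)) (x i) (h i) p ![v, Js p v] -
            ∑ i, 2 * K * (‖fderiv ℝ (ψ i) p‖ * ‖β p‖) * ‖v‖ ^ 2 := Finset.sum_sub_distrib _ _
        by_cases hex2 : ∃ i, ‖p - x i‖ < 2 * r i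
        · obtain ⟨i, hi⟩ := hex2
          have h1 : 1 / r i * ‖v‖ ^ 2 ≤
              ∑ i, (lam i * tau (Js (x i)) (x i) (h i) p ![v, Js p v] -
              2 * K * (‖fderiv ℝ (ψ i) p‖ * ‖β p‖) * ‖v‖ ^ 2) :=
            ((hterm i).2 hi).trans (Finset.single_le_sum
              (f := fun i => lam i * tau (Js (x i)) (x i) (h i) p ![v, Js p v] -
                2 * K * (‖fderiv ℝ (ψ i) p‖ * ‖β p‖) * ‖v‖ ^ 2)
              (fun j _ => (hterm j).1) (Finset.mem_univ i))
          have h2 : 0 ≤ pc ψ p * (s₀ p ![v, Js p v] + extDeriv β p ![v, Js p v]) :=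
            mul_nonneg hχ0 hs.le
          have h3 : -(S' * K * ‖v‖ ^ 2) ≤ (1 - pc ψ p) * s₀ p ![v, Js p v] := by
            have h4 : 0 ≤ S' * K * ‖v‖ ^ 2 := by positivity
            have h5 := mul_le_mul_of_nonneg_left hs0p.1 (sub_nonneg.2 hχ1)
            have h6 : (1 - pc ψ p) * (S' * K * ‖v‖ ^ 2) ≤ S' * K * ‖v‖ ^ 2 :=
              mul_le_of_le_one_left h4 (by linarith)
            linarith
          have h7 := hgain i
          linarith
        · have h1 : 0 ≤ ∑ i, (lam i * tau (Js (x i)) (x i) (h i) p ![v, Js p v] -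
              2 * K * (‖fderiv ℝ (ψ i) p‖ * ‖β p‖) * ‖v‖ ^ 2) :=
            Finset.sum_nonneg fun j _ => (hterm j).1
          have h2 : pc ψ p = 1 := pc_one hψ fun i => by
            by_contra hlt
            exact hex2 ⟨i, not_le.1 hlt⟩
          rw [h2, one_mul]
          linarith

end Pool.Agent.Q235.SZ
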