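import Pool.Agent.Q235.SR.Step

/-!
# Filling in sets of zero length: the main theorem
-/

set_option autoImplicit false

open Set Filter Topology MeasureTheory
open scoped Manifold ContDiff Pointwise

noncomputable section

namespace Pool.Agent.Q235.SZ

open Pool.Agent.Y501.SY Pool.Agent.Y455.SY

section

variable {d : ℕ} {X : Type} [TopologicalSpace X] [ChartedSpace (E d) X] [IsManifold (𝓡 d) ∞ X]

theorem rmain [T2Space X] {J : End d X} (hJ : IsAlmostComplex J) {σ : Form d X 2} {K U : Set X}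
    (hK : IsCompact K) (hU : IsOpen U) (hKU : K ⊆ U)
    (hH : ∀ x₀ : X, μH[1] (chartAt (E d) x₀ '' (K ∩ (chartAt (E d) x₀).source)) = 0)
    (hσ : SmoothOff σ K) (hσc : IsDOff σ 0 K) (ht : ∀ x, x ∉ K → TamesAt σ J x)
    (hol : ∀ z ∈ K, HolNear J z) (hprim : ∀ z ∈ K, PrimAt σ K z) :
    ∃ w : Form d X 2, IsSmooth w ∧ IsClosedForm w ∧ (∀ x, TamesAt w J x) ∧
      ∀ x, x ∉ U → w x = σ x := by
  classical
  choose! W hWo hWz hW using fun z (hz : z ∈ K) =>
    rstep hJ (σ := σ) hK hU hKU hH (hol z hz) (hprim z hz)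
  have hfin : ∀ t : Finset X, (∀ z ∈ t, z ∈ K) → ∃ w : Form d X 2,
      Ok J σ K (K \ ⋃ z ∈ t, W z) w ∧ ∀ x, x ∉ U → w x = σ x := by
    intro t
    induction t using Finset.induction_on with
    | empty =>
      intro _
      refine ⟨σ, ?_, fun x _ => rfl⟩
      have : K \ ⋃ z ∈ (∅ : Finset X), W z = K := by simp
      rw [this]
      exact ⟨hK.isClosed, Subset.rfl, hσ, hσc, ht, univ, isOpen_univ, univ_inter K,
        fun _ _ _ => rfl⟩
    | insert a t ha ih =>
      intro ht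
      obtain ⟨w, hw, hwU⟩ := ih fun z hz => ht z (Finset.mem_insert_of_mem hz)
      obtain ⟨w', hw', hwU'⟩ := hW a (ht a (Finset.mem_insert_self a t)) _ w hw
      refine ⟨w', ?_, fun x hx => (hwU' x hx).trans (hwU x hx)⟩
      have h1 : K \ ⋃ z ∈ insert a t, W z = (K \ ⋃ z ∈ t, W z) \ W a := by
        rw [Finset.set_biUnion_insert, union_comm, sdiff_sdiff_left]
        rfl
      rw [h1]
      exact hw'
  obtain ⟨t, htK, htc⟩ := hK.elim_nhds_subcover W
    (fun z hz => (hWo z hz).mem_nhds (hWz z hz))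
  obtain ⟨w, hw, hwU⟩ := hfin t htK
  have hempty : K \ ⋃ z ∈ t, W z = ∅ := by
    rw [sdiff_eq_empty]
    exact htc
  rw [hempty] at hw
  exact ⟨w, fun V φ hV hφ => hw.smooth V φ hV hφ fun p _ => notMem_empty _,
    fun V φ hV hφ => hw.closed V φ hV hφ fun p _ => notMem_empty _,
    fun x => hw.tames x (notMem_empty x), hwU⟩

end

end Pool.Agent.Q235.SZ
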