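import Pool.Agent.Q235.SR.StepC
import Pool.Agent.Y501.SY.MainP

/-!
# Filling in sets of zero length in a prescribed class: the main theorem
-/

set_option autoImplicit false

open Set Filter Topology MeasureTheory
open scoped Manifold ContDiff Pointwise

noncomputable section

namespace Pool.Agent.Q235.SZ

open Pool.Agent.Y501.SY Pool.Agent.Y455.SY

section

variable {d : ℕ} {X : Type} [TopologicalSpace X] [ChartedSpace (E d) X] [IsManifold (𝓡 d) ∞ X]

theorem rmainC [T2Space X] {J : End d X} (hJ : IsAlmostComplex J) {σ₀ : Form d X 2}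
    (hσ₀ : IsSmooth σ₀) (hσ₀c : IsClosedForm σ₀) {β : Form d X 1} {σ : Form d X 2} {K U : Set X}
    (hK : IsCompact K) (hU : IsOpen U) (hKU : K ⊆ U)
    (hH : ∀ x₀ : X, μH[1] (chartAt (E d) x₀ '' (K ∩ (chartAt (E d) x₀).source)) = 0)
    (hβ : SmoothOff β K) (hσ : SmoothOff σ K) (hβσ : IsDOff β (σ - σ₀) K)
    (ht : ∀ x, x ∉ K → TamesAt σ J x)
    (hol : ∀ z ∈ K, HolNear J z) (hbd : ∀ z ∈ K, BddPt β K z) :
    ∃ (α : Form d X 1) (ρ : Form d X 2), IsSmooth α ∧ IsSmooth ρ ∧ IsD α ρ ∧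
      IsClosedForm (σ₀ + ρ) ∧ (∀ x, TamesAt (σ₀ + ρ) J x) ∧
      ∀ x, x ∉ U → α x = β x ∧ (σ₀ + ρ) x = σ x := by
  classical
  choose! W hWo hWz hW using fun z (hz : z ∈ K) =>
    rstepC hJ hσ₀ hσ₀c (σ := σ) hU hKU hH hβ hβσ (hol z hz) (hbd z hz)
  have hfin : ∀ t : Finset X, (∀ z ∈ t, z ∈ K) → ∃ (β₁ : Form d X 1) (w : Form d X 2),
      OkC J σ₀ β σ K (K \ ⋃ z ∈ t, W z) β₁ w ∧ ∀ x, x ∉ U → β₁ x = β x ∧ w x = σ x := by
    intro t
    induction t using Finset.induction_on with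
    | empty =>
      intro _
      refine ⟨β, σ, ?_, fun x _ => ⟨rfl, rfl⟩⟩
      have : K \ ⋃ z ∈ (∅ : Finset X), W z = K := by simp
      rw [this]
      exact ⟨hK.isClosed, Subset.rfl, hβ, hσ, hβσ, ht, univ, isOpen_univ, univ_inter K,
        fun _ _ _ => ⟨rfl, rfl⟩⟩
    | insert a t ha ih =>
      intro ht
      obtain ⟨β₁, w, hw, hwU⟩ := ih fun z hz => ht z (Finset.mem_insert_of_mem hz)
      obtain ⟨β₂, w', hw', hwU'⟩ := hW a (ht a (Finset.mem_insert_self a t)) _ β₁ w hw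
      refine ⟨β₂, w', ?_, fun x hx => ⟨(hwU' x hx).1.trans (hwU x hx).1,
        (hwU' x hx).2.trans (hwU x hx).2⟩⟩
      have h1 : K \ ⋃ z ∈ insert a t, W z = (K \ ⋃ z ∈ t, W z) \ W a := by
        rw [Finset.set_biUnion_insert, union_comm, sdiff_sdiff_left]
        rfl
      rw [h1]
      exact hw'
  obtain ⟨t, htK, htc⟩ := hK.elim_nhds_subcover W
    (fun z hz => (hWo z hz).mem_nhds (hWz z hz))
  obtain ⟨β', w, hw, hwU⟩ := hfin t htK
  have hempty : K \ ⋃ z ∈ t, W z = ∅ := by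
    rw [sdiff_eq_empty]
    exact htc
  rw [hempty] at hw
  have hβs : IsSmooth β' := fun V φ hV hφ => hw.smβ V φ hV hφ fun p _ => notMem_empty _
  have hws : IsSmooth w := fun V φ hV hφ => hw.smooth V φ hV hφ fun p _ => notMem_empty _
  have hρ : IsSmooth (w - σ₀) := by
    have h7 := hws.add (hσ₀.smul (-1))
    have h8 : w + (-1 : ℝ) • σ₀ = w - σ₀ := by
      funext x
      ext u
      change w x u + (-1 : ℝ) * σ₀ x u = w x u - σ₀ x u
      ring
    rwa [h8] at h7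
  have hd' : IsD β' (w - σ₀) := fun V φ hV hφ => hw.isD V φ hV hφ fun p _ => notMem_empty _
  have hcl : IsClosedForm (σ₀ + (w - σ₀)) := by
    have h1 := hσ₀c.add (closed_of_isD hβs hρ hd') hσ₀ hρ
    rwa [add_zero] at h1
  refine ⟨β', w - σ₀, hβs, hρ, hd', hcl, fun x => ?_, fun x hx => ?_⟩
  · rw [add_sub_cancel]
    exact hw.tames x (notMem_empty x)
  · rw [add_sub_cancel]
    exact hwU x hx

end

end Pool.Agent.Q235.SZ
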