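import Pool.Agent.Q235.SR.StepL
import Pool.Agent.Q235.SQ.LowPt
import Pool.Agent.Y972.SY.RGP
import Pool.Agent.Y710.SY.J1
import Pool.Agent.Y689.SY.HH
import Pool.Agent.Y501.SY.MainP

/-!
# Two kinds of singularities in a prescribed class
-/

set_option autoImplicit false

open Set Filter Topology MeasureTheory
open scoped Manifold ContDiff Pointwise

noncomputable section

namespace Pool.Agent.Q235.SZ

open Pool.Agent.Y501.SY Pool.Agent.Y455.SY

section

variable {d m : ℕ} {X : Type} [TopologicalSpace X] [ChartedSpace (E d) X]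

/-- boundedness of a one-form off `K` near `x` with respect to the metric induced by `F` -/
def BdF1 (F : X → E m) (β : Form d X 1) (K : Set X) (x : X) : Prop :=
  ∃ ε : ℝ, 0 < ε ∧ ∀ᶠ y in 𝓝 x, y ∉ K → ∀ v : TangentSpace (𝓡 d) y, ε * |β y ![v]| ≤ nm F y v

theorem pb_add' {k : ℕ} (φ : E d → X) (σ τ : Form d X k) (p : E d) :
    pb φ (σ + τ) p = pb φ σ p + pb φ τ p := by
  rw [pb_add]
  rfl

variable [IsManifold (𝓡 d) ∞ X]

theorem cont_smooth {k : ℕ} {τ : Form d X k} (h : IsSmooth τ) (x : X) :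
    ContinuousAt (pb (chartAt (E d) x).symm τ) (chartAt (E d) x x) := by
  have h2 := h _ (chartAt (E d) x).symm (chartAt (E d) x).open_target
    (contMDiffOn_chart_symm (I := 𝓡 d))
  exact h2.continuousOn.continuousAt ((chartAt (E d) x).open_target.mem_nhds
    (mem_chart_target (E d) x))

theorem cont_off {k : ℕ} {τ : Form d X k} {K : Set X} (hK : IsClosed K) (h : SmoothOff τ K)
    (x : X) {p : E d} (hp : p ∈ (chartAt (E d) x).target) (hpK : (chartAt (E d) x).symm p ∉ K) :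
    ContinuousAt (pb (chartAt (E d) x).symm τ) p := by
  have h1 : IsOpen ((chartAt (E d) x).target ∩ (chartAt (E d) x).symm ⁻¹' Kᶜ) :=
    (chartAt (E d) x).isOpen_inter_preimage_symm hK.isOpen_compl
  have h2 := h _ (chartAt (E d) x).symm h1
    ((contMDiffOn_chart_symm (n := ∞)).mono inter_subset_left) (fun p hp => hp.2)
  exact h2.continuousOn.continuousAt (h1.mem_nhds ⟨hp, hpK⟩)

theorem ev_bd {k : ℕ} {τ : Form d X k} (h : IsSmooth τ) (x : X) :
    ∃ C : ℝ, 0 ≤ C ∧ ∀ᶠ p in 𝓝 (chartAt (E d) x x), ‖pb (chartAt (E d) x).symm τ p‖ ≤ C := by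
  refine ⟨‖pb (chartAt (E d) x).symm τ (chartAt (E d) x x)‖ + 1, by positivity, ?_⟩
  filter_upwards [(cont_smooth h x).norm.eventually_lt_const (lt_add_one _)] with p hp
  exact hp.le

theorem bddAt1_add {β α : Form d X 1} (hα : IsSmooth α) {K : Set X} {x : X}
    (h : BddAt1 β K x) : BddAt1 (β + α) K x := by
  obtain ⟨B, hB⟩ := h
  obtain ⟨C, -, hC⟩ := ev_bd hα x
  refine ⟨B + C, ?_⟩
  filter_upwards [hB, hC] with p hp hp2 hpK
  rw [pb_add']
  exact (norm_add_le _ _).trans (add_le_add (hp hpK) hp2)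

theorem bddAt2_add {β α : Form d X 2} (hα : IsSmooth α) {K : Set X} {x : X}
    (h : BddAt β K x) : BddAt (β + α) K x := by
  obtain ⟨B, hB⟩ := h
  obtain ⟨C, -, hC⟩ := ev_bd hα x
  refine ⟨B + C, ?_⟩
  filter_upwards [hB, hC] with p hp hp2 hpK
  rw [pb_add']
  exact (norm_add_le _ _).trans (add_le_add (hp hpK) hp2)

theorem bddPt_add {β α : Form d X 1} (hα : IsSmooth α) {K : Set X} {x : X}
    (h : BddPt β K x) : BddPt (β + α) K x := by
  rcases h with h | ⟨h1, h2⟩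
  · exact Or.inl (bddAt1_add hα h)
  · refine Or.inr ⟨h1, fun e he => ?_⟩
    obtain ⟨C, hC0, hC⟩ := ev_bd hα x
    have h3 : ∀ᶠ p in 𝓝 (chartAt (E d) x x), ‖p - chartAt (E d) x x‖ < e / (2 * (C + 1)) := by
      have h4 : ContinuousAt (fun p : E d => ‖p - chartAt (E d) x x‖) (chartAt (E d) x x) :=
        (continuousAt_id.sub continuousAt_const).norm
      refine h4.eventually_lt_const ?_
      dsimp only
      rw [sub_self, norm_zero]
      positivity
    filter_upwards [h2 (e / 2) (by positivity), hC, h3] with p hp hp2 hp3 hpK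
    rw [pb_add']
    have h5 := norm_add_le (pb (chartAt (E d) x).symm β p) (pb (chartAt (E d) x).symm α p)
    have h6 := mul_le_mul_of_nonneg_left h5 (norm_nonneg (p - chartAt (E d) x x))
    rw [mul_add] at h6
    have h7 : ‖p - chartAt (E d) x x‖ * ‖pb (chartAt (E d) x).symm α p‖ ≤ e / 2 := by
      calc _ ≤ e / (2 * (C + 1)) * (C + 1) :=
            mul_le_mul hp3.le (hp2.trans (by linarith)) (norm_nonneg _) (by positivity)
        _ = e / 2 := by field_simp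
    have h8 := hp hpK
    linarith

theorem bddAt1_off {β : Form d X 1} {K : Set X} (hK : IsClosed K) (h : SmoothOff β K) {x : X}
    (hx : x ∉ K) : BddAt1 β K x := by
  have h1 := cont_off hK h x (mem_chart_target (E d) x) (by
    rwa [(chartAt (E d) x).left_inv (mem_chart_source (E d) x)])
  refine ⟨‖pb (chartAt (E d) x).symm β (chartAt (E d) x x)‖ + 1, ?_⟩
  filter_upwards [h1.norm.eventually_lt_const (lt_add_one _)] with p hp _
  exact hp.le

theorem bddAt2_off {β : Form d X 2} {K : Set X} (hK : IsClosed K) (h : SmoothOff β K) {x : X}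
    (hx : x ∉ K) : BddAt β K x := by
  have h1 := cont_off hK h x (mem_chart_target (E d) x) (by
    rwa [(chartAt (E d) x).left_inv (mem_chart_source (E d) x)])
  refine ⟨‖pb (chartAt (E d) x).symm β (chartAt (E d) x x)‖ + 1, ?_⟩
  filter_upwards [h1.norm.eventually_lt_const (lt_add_one _)] with p hp _
  exact hp.le

theorem BdF1_of (hI : S_IMM) {F : X → E m} (hF : ContMDiff (𝓡 d) (𝓡 m) ∞ F)
    (hFi : ∀ x, Function.Injective (mfderiv (𝓡 d) (𝓡 m) F x)) {β : Form d X 1} {K : Set X}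
    {x : X} (hb : BddAt1 β K x) : BdF1 F β K x := by
  obtain ⟨B, hB⟩ := hb
  obtain ⟨r, hr, hball⟩ := Metric.nhds_basis_closedBall.mem_iff.1
    ((chartAt (E d) x).open_target.mem_nhds (mem_chart_target (E d) x))
  obtain ⟨c₁, C₁, hc₁, hC₁, hnm⟩ := hI d m X F hF hFi x _
    (isCompact_closedBall (chartAt (E d) x x) r) hball
  have hN : ∀ᶠ p in 𝓝 (chartAt (E d) x x), p ∈ Metric.closedBall (chartAt (E d) x x) r :=
    Metric.closedBall_mem_nhds _ hr
  refine ⟨c₁ / (|B| + 1), by positivity, ?_⟩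
  rw [← ev_chart (d := d) x (fun y => y ∉ K → ∀ v : TangentSpace (𝓡 d) y,
    c₁ / (|B| + 1) * |β y ![v]| ≤ nm F y v)]
  filter_upwards [hB, hN] with p hp hpN hpK v
  have hpt := hball hpN
  have hv := Pool.Agent.Y455.SY.AB x hpt v
  obtain ⟨v', hv'⟩ : ∃ v', v' = Pool.Agent.Y455.SY.B x p v := ⟨_, rfl⟩
  rw [← hv'] at hv
  have h1 : β ((chartAt (E d) x).symm p) ![v] = pb (chartAt (E d) x).symm β p ![v'] := by
    rw [pb_app1]
    change _ = β ((chartAt (E d) x).symm p) ![Pool.Agent.Y455.SY.A x p v']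
    rw [hv]
  rw [h1]
  have h2 := le_norm1 (pb (chartAt (E d) x).symm β p) v'
  have h3 : ‖pb (chartAt (E d) x).symm β p‖ ≤ |B| + 1 :=
    (hp hpK).trans ((le_abs_self _).trans (by linarith))
  have h4 := (hnm p hpN v').1
  change c₁ * ‖v'‖ ≤ nm F ((chartAt (E d) x).symm p) (Pool.Agent.Y455.SY.A x p v') at h4
  rw [hv] at h4
  have h5 : |pb (chartAt (E d) x).symm β p ![v']| ≤ (|B| + 1) * ‖v'‖ :=
    h2.trans (mul_le_mul_of_nonneg_right h3 (norm_nonneg _))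
  have h6 : c₁ / (|B| + 1) * |pb (chartAt (E d) x).symm β p ![v']| ≤ c₁ * ‖v'‖ := by
    rw [div_mul_eq_mul_div, div_le_iff₀ (by positivity)]
    calc c₁ * |pb (chartAt (E d) x).symm β p ![v']| ≤ c₁ * ((|B| + 1) * ‖v'‖) := by gcongr
      _ = c₁ * ‖v'‖ * (|B| + 1) := by ring
  exact h6.trans h4

theorem BdF2_of (hI : S_IMM) {F : X → E m} (hF : ContMDiff (𝓡 d) (𝓡 m) ∞ F)
    (hFi : ∀ x, Function.Injective (mfderiv (𝓡 d) (𝓡 m) F x)) {J : End d X}
    (hJ : IsAlmostComplex J) {w : Form d X 2} {K : Set X} {x : X}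
    (h : BddAt w K x) : BdF F w K x := by
  have h1 := BdF_of hI hF hFi hJ (w := w) (η := 0) IsSmooth.zero 0 h
  rwa [smul_zero, add_zero] at h1

theorem UTAt_off {J : End d X} (hJ : IsAlmostComplex J) {w : Form d X 2} {K : Set X}
    (hK : IsClosed K) (h : SmoothOff w K) {x : X} (hx : x ∉ K)
    (ht : ∀ x, x ∉ K → TamesAt w J x) : UTAt w J K x := by
  have h1 : IsOpen ((chartAt (E d) x).target ∩ (chartAt (E d) x).symm ⁻¹' Kᶜ) :=
    (chartAt (E d) x).isOpen_inter_preimage_symm hK.isOpen_compl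
  obtain ⟨r, hr, hball⟩ := Metric.nhds_basis_closedBall.mem_iff.1
    (h1.mem_nhds (⟨mem_chart_target (E d) x, by
      rw [mem_preimage, (chartAt (E d) x).left_inv (mem_chart_source (E d) x)]
      exact hx⟩ : chartAt (E d) x x ∈ (chartAt (E d) x).target ∩ (chartAt (E d) x).symm ⁻¹' Kᶜ))
  obtain ⟨c, hc, hcm⟩ := low_comp (isCompact_closedBall (chartAt (E d) x x) r)
    (s := pb (chartAt (E d) x).symm w) (Js := inChart J x)
    (fun p hp => cont_off hK h x (hball hp).1 (hball hp).2)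
    (fun p hp => (hJ.cont x).continuousAt
      ((chartAt (E d) x).open_target.mem_nhds (hball hp).1))
    (fun p hp v hv => (tames_iff w J x (hball hp).1).1 (ht _ (hball hp).2) v hv)
  refine ⟨c, hc, ?_⟩
  filter_upwards [Metric.closedBall_mem_nhds (chartAt (E d) x x) hr] with p hp _ v
  exact hcm p hp v

/-- the final smoothing -/
theorem finishP (hd : 1 ≤ d) [CompactSpace X] [T2Space X] {F : X → E m}
    (hF : ContMDiff (𝓡 d) (𝓡 m) ∞ F)
    (hFi : ∀ x, Function.Injective (mfderiv (𝓡 d) (𝓡 m) F x)) {J : End d X}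
    (hJ : IsAlmostComplex J) {K : Set X} (hK : IsClosed K)
    (hH : ∀ x₀ : X, μH[(d : ℝ) - 1] (chartAt (E d) x₀ '' (K ∩ (chartAt (E d) x₀).source)) = 0)
    {σ₀ : Form d X 2} (hσ₀ : IsSmooth σ₀) (hσ₀c : IsClosedForm σ₀) {β : Form d X 1}
    {σ : Form d X 2} (hstart : UTP F J σ₀ β σ K) :
    ∃ (α : Form d X 1) (ρ : Form d X 2), IsSmooth α ∧ IsSmooth ρ ∧ IsD α ρ ∧
      IsClosedForm (σ₀ + ρ) ∧ ∀ x, TamesAt (σ₀ + ρ) J x := by
  classical
  choose W hWo hWz hW using fun z : X => stepP Pool.Agent.Y44.SY.t_IMM Pool.Agent.Y44.SY.t_QB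
    Pool.Agent.Y972.SY.t_RGP Pool.Agent.Y710.SY.t_J1 Pool.Agent.Y689.SY.t_HH
    Pool.Agent.Y932.SY.Ker.t_KER Pool.Agent.Y394.SY.t_SM Pool.Agent.Y501.SY.t_CAP
    Pool.Agent.Y891.SY.t_PATCHP
    Pool.Agent.Y363.SY.t_LOCAL Pool.Agent.Y484.SY.t_GEN Pool.Agent.Y455.SY.t_PERT hF hFi hJ hd
    hσ₀ hσ₀c z
  have hfin : ∀ t : Finset X, ∃ (β' : Form d X 1) (w : Form d X 2),
      UTP F J σ₀ β' w (K \ ⋃ z ∈ t, W z) := by
    intro t
    induction t using Finset.induction_on with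
    | empty =>
      refine ⟨β, σ, ?_⟩
      have : K \ ⋃ z ∈ (∅ : Finset X), W z = K := by simp
      rw [this]
      exact hstart
    | insert a t ha ih =>
      obtain ⟨β', w, hw⟩ := ih
      have hop : IsOpen (⋃ z ∈ t, W z) := isOpen_biUnion fun z _ => hWo z
      have hcl : IsClosed (K \ ⋃ z ∈ t, W z) := by
        rw [sdiff_eq]
        exact hK.inter hop.isClosed_compl
      obtain ⟨β'', w', hw'⟩ := hW a _ β' w hcl
        (fun x₀ => measure_mono_null (image_mono (inter_subset_inter_left _ sdiff_subset))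
          (hH x₀)) hw
      refine ⟨β'', w', ?_⟩
      have h1 : K \ ⋃ z ∈ insert a t, W z = (K \ ⋃ z ∈ t, W z) \ W a := by
        rw [Finset.set_biUnion_insert, union_comm, sdiff_sdiff_left]
        rfl
      rw [h1]
      exact hw'
  obtain ⟨t, -, htc⟩ := hK.isCompact.elim_nhds_subcover W
    (fun z _ => (hWo z).mem_nhds (hWz z))
  obtain ⟨β', w, hw⟩ := hfin t
  have hempty : K \ ⋃ z ∈ t, W z = ∅ := by
    rw [sdiff_eq_empty]
    exact htc
  rw [hempty] at hw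
  obtain ⟨c, hc, hwc⟩ := hw.pos
  have hβs : IsSmooth β' := fun V φ hV hφ => hw.smβ V φ hV hφ fun p _ => notMem_empty _
  have hws : IsSmooth w := fun V φ hV hφ => hw.smooth V φ hV hφ fun p _ => notMem_empty _
  have hρ : IsSmooth (w - σ₀) := by
    have h7 := hws.add (hσ₀.smul (-1))
    have h8 : w + (-1 : ℝ) • σ₀ = w - σ₀ := by
      funext x
      ext u
      change w x u + (-1 : ℝ) * σ₀ x u = w x u - σ₀ x u
      ring
    rwa [h8] at h7
  have hd' : IsD β' (w - σ₀) := fun V φ hV hφ => hw.isD V φ hV hφ fun p _ => notMem_empty _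
  have hcl : IsClosedForm (σ₀ + (w - σ₀)) := by
    have h1 := hσ₀c.add (closed_of_isD hβs hρ hd') hσ₀ hρ
    rwa [add_zero] at h1
  refine ⟨β', w - σ₀, hβs, hρ, hd', hcl, fun x v hv => ?_⟩
  rw [add_sub_cancel]
  refine lt_of_lt_of_le ?_ (hwc x (notMem_empty _) v)
  have h1 : 0 < nm F x v := by
    refine lt_of_le_of_ne (norm_nonneg _) fun h => hv ?_
    have h2 : (mfderiv (𝓡 d) (𝓡 m) F x v : E m) = 0 := norm_eq_zero.1 h.symm
    apply hFi x
    rw [map_zero]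
    exact h2
  positivity

/-- near `z` both forms are bounded off `K`, or `K` has zero length near `z` and the one-form is
bounded off `K` near `z`, or `o(dist⁻¹)` if `z` is isolated in `K` -/
def SingPt (J : End d X) (β : Form d X 1) (σ : Form d X 2) (K : Set X) (z : X) : Prop :=
  (BddAt1 β K z ∧ BddAt σ K z) ∨
    (HolNear J z ∧ (∃ N ∈ 𝓝 z, μH[1] (chartAt (E d) z '' (K ∩ N ∩ (chartAt (E d) z).source)) = 0) ∧
      BddPt β K z)

theorem SingPt.add {J : End d X} {β α : Form d X 1} {σ η : Form d X 2} {K : Set X} {z : X}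
    (h : SingPt J β σ K z) (hα : IsSmooth α) (hη : IsSmooth η) : SingPt J (β + α) (σ + η) K z := by
  rcases h with ⟨h1, h2⟩ | ⟨h1, h2, h3⟩
  · exact Or.inl ⟨bddAt1_add hα h1, bddAt2_add hη h2⟩
  · exact Or.inr ⟨h1, h2, bddPt_add hα h3⟩

theorem mix (hd : 1 ≤ d) [CompactSpace X] [T2Space X] {F : X → E m}
    (hF : ContMDiff (𝓡 d) (𝓡 m) ∞ F)
    (hFi : ∀ x, Function.Injective (mfderiv (𝓡 d) (𝓡 m) F x)) {J : End d X}
    (hJ : IsAlmostComplex J) {K : Set X} (hK : IsClosed K)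
    (hH : ∀ x₀ : X, μH[(d : ℝ) - 1] (chartAt (E d) x₀ '' (K ∩ (chartAt (E d) x₀).source)) = 0)
    {σ₀ : Form d X 2} (hσ₀ : IsSmooth σ₀) (hσ₀c : IsClosedForm σ₀) {β : Form d X 1}
    {σ : Form d X 2} (hβ : SmoothOff β K) (hσ : SmoothOff σ K) (hβσ : IsDOff β (σ - σ₀) K)
    (hLB : LBd F J σ K) (hsing : ∀ z ∈ K, SingPt J β σ K z) :
    ∃ (α : Form d X 1) (ρ : Form d X 2), IsSmooth α ∧ IsSmooth ρ ∧ IsD α ρ ∧
      IsClosedForm (σ₀ + ρ) ∧ ∀ x, TamesAt (σ₀ + ρ) J x := by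
  classical
  have hI := Pool.Agent.Y44.SY.t_IMM
  obtain ⟨c₀, hc₀, hlow⟩ := hLB
  have htame : ∀ x, x ∉ K → TamesAt σ J x := by
    intro x hx v hv
    refine lt_of_lt_of_le ?_ (hlow x hx v)
    have := nm_pos hFi hv
    positivity
  obtain ⟨PA, hPA⟩ : ∃ PA : Set X → Prop, PA = fun W => ∃ ε : ℝ, 0 < ε ∧ ∀ y ∈ W, y ∉ K →
      (∀ v : TangentSpace (𝓡 d) y, ε * |β y ![v]| ≤ nm F y v) ∧
      ∀ v u : TangentSpace (𝓡 d) y, ε * |σ y ![v, u]| ≤ nm F y v * nm F y u := ⟨_, rfl⟩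
  obtain ⟨PB, hPB⟩ : ∃ PB : Set X → Prop, PB = fun W => ∀ (K' : Set X) (β₁ : Form d X 1)
      (w : Form d X 2), OkC J σ₀ β σ K K' β₁ w → ∃ (β₂ : Form d X 1) (w' : Form d X 2),
        OkC J σ₀ β σ K (K' \ W) β₂ w' := ⟨_, rfl⟩
  have hcov : ∀ z ∈ K, ∃ W : Set X, IsOpen W ∧ z ∈ W ∧ (PA W ∨ PB W) := by
    intro z hz
    rcases hsing z hz with ⟨h1, h2⟩ | ⟨h1, ⟨N, hN, h2⟩, h3⟩
    · obtain ⟨ε₁, hε₁, e1⟩ := BdF1_of hI hF hFi h1
      obtain ⟨ε₂, hε₂, e2⟩ := BdF2_of hI hF hFi hJ h2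
      obtain ⟨W, hW, hWo, hzW⟩ := mem_nhds_iff.1 (e1.and e2)
      refine ⟨W, hWo, hzW, Or.inl ?_⟩
      rw [hPA]
      refine ⟨min ε₁ ε₂, by positivity, fun y hy hyK => ⟨fun v => ?_, fun v u => ?_⟩⟩
      · exact (mul_le_mul_of_nonneg_right (min_le_left _ _) (abs_nonneg _)).trans
          ((hW hy).1 hyK v)
      · exact (mul_le_mul_of_nonneg_right (min_le_right _ _) (abs_nonneg _)).trans
          ((hW hy).2 hyK v u)
    · obtain ⟨W, hWo, hzW, hW⟩ := rstepL hJ hσ₀ hσ₀c (σ := σ) isOpen_univ (subset_univ K) hβ hβσ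
        hN h2 h1 h3
      refine ⟨W, hWo, hzW, Or.inr ?_⟩
      rw [hPB]
      intro K' β₁ w hw
      obtain ⟨β₂, w', h4, -⟩ := hW K' β₁ w hw
      exact ⟨β₂, w', h4⟩
  choose! W hWo hWz hW using hcov
  obtain ⟨t, htK, htc⟩ := hK.isCompact.elim_nhds_subcover W
    (fun z hz => (hWo z hz).mem_nhds (hWz z hz))
  obtain ⟨tB, htB⟩ : ∃ tB : Finset X, tB = t.filter fun z => ¬ PA (W z) := ⟨_, rfl⟩
  have hfin : ∀ s : Finset X, s ⊆ tB → ∃ (β₁ : Form d X 1) (w : Form d X 2),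
      OkC J σ₀ β σ K (K \ ⋃ z ∈ s, W z) β₁ w := by
    intro s
    induction s using Finset.induction_on with
    | empty =>
      intro _
      refine ⟨β, σ, ?_⟩
      have : K \ ⋃ z ∈ (∅ : Finset X), W z = K := by simp
      rw [this]
      exact ⟨hK, Subset.rfl, hβ, hσ, hβσ, htame, univ, isOpen_univ, univ_inter K,
        fun _ _ _ => ⟨rfl, rfl⟩⟩
    | insert a s ha ih =>
      intro hs
      obtain ⟨β₁, w, hw⟩ := ih fun z hz => hs (Finset.mem_insert_of_mem hz)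
      have h1 : a ∈ tB := hs (Finset.mem_insert_self a s)
      rw [htB, Finset.mem_filter] at h1
      have h2 : PB (W a) := (hW a (htK a h1.1)).resolve_left h1.2
      rw [hPB] at h2
      obtain ⟨β₂, w', hw'⟩ := h2 _ β₁ w hw
      refine ⟨β₂, w', ?_⟩
      have h1 : K \ ⋃ z ∈ insert a s, W z = (K \ ⋃ z ∈ s, W z) \ W a := by
        rw [Finset.set_biUnion_insert, union_comm, sdiff_sdiff_left]
        rfl
      rw [h1]
      exact hw'
  obtain ⟨β₂, w, hw⟩ := hfin tB Subset.rfl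
  obtain ⟨K', hK'⟩ : ∃ K', K' = K \ ⋃ z ∈ tB, W z := ⟨_, rfl⟩
  rw [← hK'] at hw
  obtain ⟨G, hG, hGK, hGw⟩ := hw.near
  -- the points of `K'`
  have hnear : ∀ x ∈ K', ∃ ε : ℝ, 0 < ε ∧ ∀ᶠ y in 𝓝 x, y ∉ K' →
      (∀ v : TangentSpace (𝓡 d) y, ε * |β₂ y ![v]| ≤ nm F y v) ∧
      (∀ v u : TangentSpace (𝓡 d) y, ε * |w y ![v, u]| ≤ nm F y v * nm F y u) ∧
      ∀ v : TangentSpace (𝓡 d) y, ε * nm F y v ^ 2 ≤ w y ![v, J y v] := by
    intro x hx
    have hxK : x ∈ K := hw.sub hx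
    obtain ⟨z, hz, hxz⟩ := mem_iUnion₂.1 (htc hxK)
    have hzA : PA (W z) := by
      by_contra h
      rw [hK'] at hx
      apply hx.2
      refine mem_iUnion₂.2 ⟨z, ?_, hxz⟩
      rw [htB, Finset.mem_filter]
      exact ⟨hz, h⟩
    rw [hPA] at hzA
    obtain ⟨ε, hε, h⟩ := hzA
    have hxG : x ∈ G := by
      have h1 : x ∈ G ∩ K := by rw [hGK]; exact hx
      exact h1.1
    refine ⟨min ε c₀, by positivity, ?_⟩
    filter_upwards [(hWo z (htK z hz)).mem_nhds hxz, hG.mem_nhds hxG] with y hy hyG hyK'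
    have hyK : y ∉ K := fun h1 => hyK' (by rw [← hGK]; exact ⟨hyG, h1⟩)
    obtain ⟨e1, e2⟩ := hGw y hyG hyK
    rw [e1, e2]
    obtain ⟨e3, e4⟩ := h y hy hyK
    refine ⟨fun v => ?_, fun v u => ?_, fun v => ?_⟩
    · exact (mul_le_mul_of_nonneg_right (min_le_left _ _) (abs_nonneg _)).trans (e3 v)
    · exact (mul_le_mul_of_nonneg_right (min_le_left _ _) (abs_nonneg _)).trans (e4 v u)
    · exact (mul_le_mul_of_nonneg_right (min_le_right _ _) (sq_nonneg _)).trans (hlow y hyK v)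
  have hall : ∀ x ∈ (univ : Set X), ∃ ε : ℝ, 0 < ε ∧ ∀ᶠ y in 𝓝 x, y ∉ K' →
      (∀ v : TangentSpace (𝓡 d) y, ε * |β₂ y ![v]| ≤ nm F y v) ∧
      (∀ v u : TangentSpace (𝓡 d) y, ε * |w y ![v, u]| ≤ nm F y v * nm F y u) ∧
      ∀ v : TangentSpace (𝓡 d) y, ε * nm F y v ^ 2 ≤ w y ![v, J y v] := by
    intro x _
    by_cases hx : x ∈ K'
    · exact hnear x hx
    · obtain ⟨ε₁, hε₁, e1⟩ := BdF1_of hI hF hFi (bddAt1_off hw.cl hw.smβ hx)
      obtain ⟨ε₂, hε₂, e2⟩ := BdF2_of hI hF hFi hJ (bddAt2_off hw.cl hw.smooth hx)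
      obtain ⟨ε₃, hε₃, e3⟩ := (UTAt_iff hI hF hFi w J K' x).1
        (UTAt_off hJ hw.cl hw.smooth hx hw.tames)
      refine ⟨min ε₁ (min ε₂ ε₃), by positivity, ?_⟩
      filter_upwards [e1, e2, e3] with y h1 h2 h3 hyK
      refine ⟨fun v => ?_, fun v u => ?_, fun v => ?_⟩
      · exact (mul_le_mul_of_nonneg_right (min_le_left _ _) (abs_nonneg _)).trans (h1 hyK v)
      · exact (mul_le_mul_of_nonneg_right ((min_le_right _ _).trans (min_le_left _ _))
          (abs_nonneg _)).trans (h2 hyK v u)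
      · exact (mul_le_mul_of_nonneg_right ((min_le_right _ _).trans (min_le_right _ _))
          (sq_nonneg _)).trans (h3 hyK v)
  obtain ⟨ε, hε, hbd⟩ := unif (isCompact_univ (X := X)) (fun ε y => y ∉ K' →
      (∀ v : TangentSpace (𝓡 d) y, ε * |β₂ y ![v]| ≤ nm F y v) ∧
      (∀ v u : TangentSpace (𝓡 d) y, ε * |w y ![v, u]| ≤ nm F y v * nm F y u) ∧
      ∀ v : TangentSpace (𝓡 d) y, ε * nm F y v ^ 2 ≤ w y ![v, J y v])
    (fun ε ε' y hle hp hy => ⟨fun v =>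
      (mul_le_mul_of_nonneg_right hle (abs_nonneg _)).trans ((hp hy).1 v), fun v u =>
      (mul_le_mul_of_nonneg_right hle (abs_nonneg _)).trans ((hp hy).2.1 v u), fun v =>
      (mul_le_mul_of_nonneg_right hle (sq_nonneg _)).trans ((hp hy).2.2 v)⟩) hall
  have hstart : UTP F J σ₀ β₂ w K' := by
    refine ⟨hw.smβ, hw.smooth, hw.isD, ⟨ε⁻¹, by positivity, fun x hx v => ?_⟩,
      ⟨ε⁻¹, by positivity, fun x hx v u => ?_⟩, ⟨ε, hε, fun x hx v => ?_⟩⟩
    · have h1 := (hbd x (mem_univ x) hx).1 v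
      rw [inv_mul_eq_div, le_div_iff₀ hε, mul_comm]
      exact h1
    · have h1 := (hbd x (mem_univ x) hx).2.1 v u
      rw [mul_assoc, inv_mul_eq_div, le_div_iff₀ hε, mul_comm]
      exact h1
    · exact (hbd x (mem_univ x) hx).2.2 v
  exact finishP hd hF hFi hJ hw.cl (fun x₀ => measure_mono_null
    (image_mono (inter_subset_inter_left _ hw.sub)) (hH x₀)) hσ₀ hσ₀c hstart

end

end Pool.Agent.Q235.SZ
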