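import Pool.Agent.Q235.SQ.PshU

/-!
# The form with logarithmic potential without cut-off
-/

set_option autoImplicit false

open Set Filter Topology MeasureTheory
open scoped Manifold ContDiff Pointwise

noncomputable section

namespace Pool.Agent.Q235.SZ

open Pool.Agent.Y501.SY Pool.Agent.Y515.SY

variable {d : ℕ}

/-- the potential -/
def gp (A b : ℝ) (J : E d →L[ℝ] E d) (c : E d) (r : ℝ) (x : E d) : ℝ :=
  G A b (N J (x - c) + r ^ 2)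

theorem gp_smooth (A b : ℝ) (J : E d →L[ℝ] E d) (c : E d) {r : ℝ} (hr : 0 < r) :
    ContDiff ℝ ∞ (gp A b J c r) :=
  G_comp_smooth J c A b (by positivity)

theorem gp_fderiv (A b : ℝ) (J : E d →L[ℝ] E d) (c : E d) {r : ℝ} (hr : 0 < r) (x : E d) :
    fderiv ℝ (gp A b J c r) x =
      G' A b (N J (x - c) + r ^ 2) • fderiv ℝ (fun x => N J (x - c)) x :=
  (G_comp_deriv J c A b (by positivity) x).fderiv

theorem gp_pos {A : ℝ} (b : ℝ) (hA : 0 ≤ A) (J : E d →L[ℝ] E d) (c : E d) {r : ℝ} (hr : 0 < r)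
    (x : E d) : 0 < gp A b J c r x :=
  G_pos hA (by
    have h1 := N_ge J (x - c)
    have h2 : 0 ≤ ‖x - c‖ ^ 2 := sq_nonneg _
    have h3 : 0 < r ^ 2 := by positivity
    linarith)

theorem gp_grad {A b K : ℝ} (hA : 0 ≤ A) (hb0 : 0 ≤ b) (hb : b < 1) {J : E d →L[ℝ] E d}
    (hK : 1 + ‖J‖ ≤ K) (c : E d) {r : ℝ} (hr : 0 < r) (x : E d) :
    ‖fderiv ℝ (gp A b J c r) x‖ * ‖x - c‖ ≤ 2 * K ^ 2 * gp A b J c r x := by
  have hq : 0 ≤ N J (x - c) := (sq_nonneg ‖x - c‖).trans (N_ge J (x - c))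
  have h1 : |G' A b (N J (x - c) + r ^ 2)| * ‖x - c‖ ^ 2 ≤ G A b (N J (x - c) + r ^ 2) :=
    (mul_le_mul_of_nonneg_left (N_ge J (x - c)) (abs_nonneg _)).trans
      (G'_le hA hb0 hb hq (by positivity))
  rw [gp_fderiv A b J c hr, norm_smul, Real.norm_eq_abs]
  have h2 := mul_le_mul_of_nonneg_left (DN_normK (c := c) hK x)
    (abs_nonneg (G' A b (N J (x - c) + r ^ 2)))
  have h3 := mul_le_mul_of_nonneg_right h2 (norm_nonneg (x - c))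
  refine h3.trans ?_
  have h5 := mul_le_mul_of_nonneg_left h1 (by positivity : 0 ≤ 2 * K ^ 2)
  calc |G' A b (N J (x - c) + r ^ 2)| * (2 * K ^ 2 * ‖x - c‖) * ‖x - c‖ =
      2 * K ^ 2 * (|G' A b (N J (x - c) + r ^ 2)| * ‖x - c‖ ^ 2) := by ring
    _ ≤ _ := h5

theorem gp_le {A b κ : ℝ} (hA : 0 ≤ A) (hb : b < 1) (hκ : 0 < κ) (J : E d →L[ℝ] E d) (c : E d)
    {r : ℝ} (_hr : 0 < r) {x : E d} (hx : κ ≤ ‖x - c‖) :
    gp A b J c r x ≤ (κ ^ 2)⁻¹ + A * (κ ^ 2) ^ (b - 1) := by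
  have h3 : κ ^ 2 ≤ N J (x - c) + r ^ 2 := by
    have h4 := N_ge J (x - c)
    have h5 : κ ^ 2 ≤ ‖x - c‖ ^ 2 := pow_le_pow_left₀ hκ.le hx 2
    have h6 : 0 ≤ r ^ 2 := sq_nonneg _
    linarith
  unfold gp G
  have h6 : (N J (x - c) + r ^ 2)⁻¹ ≤ (κ ^ 2)⁻¹ := inv_anti₀ (by positivity) h3
  have h7 : (N J (x - c) + r ^ 2) ^ (b - 1) ≤ (κ ^ 2) ^ (b - 1) :=
    Real.rpow_le_rpow_of_nonpos (by positivity) h3 (by linarith)
  have h8 := mul_le_mul_of_nonneg_left h7 hA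
  linarith

theorem psh_core {K L a : ℝ} (hK1 : 1 ≤ K) (hL : 0 ≤ L) (ha : 0 < a) (ha1 : a ≤ 1) :
    ∃ R A b c₁ : ℝ, 0 < R ∧ 0 ≤ A ∧ 0 ≤ b ∧ b < 1 ∧ 0 < c₁ ∧ ∀ (c : E d) (J : E d →L[ℝ] E d),
      (∀ v, J (J v) = -v) → 1 + ‖J‖ ≤ K → ∀ (x : E d) (T : E d →L[ℝ] E d), ‖x - c‖ < R →
      ‖T - J‖ ≤ L * ‖x - c‖ ^ a → ∀ r : ℝ, 0 < r → 4 * r ≤ R → ∀ u : E d,
        0 ≤ tau J c (gp A b J c r) x ![u, T u] ∧
        (‖x - c‖ ≤ 2 * r → c₁ / r ^ 2 * ‖u‖ ^ 2 ≤ tau J c (gp A b J c r) x ![u, T u]) := by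
  obtain ⟨b, hb⟩ : ∃ b, b = a / 2 := ⟨_, rfl⟩
  have hb0 : 0 < b := by rw [hb]; positivity
  have hb1 : b < 1 := by rw [hb]; linarith
  obtain ⟨C2, hC2⟩ : ∃ C2, C2 = 12 * K ^ 3 * (L + 1) := ⟨_, rfl⟩
  have hC20 : 0 < C2 := by rw [hC2]; positivity
  obtain ⟨A, hA⟩ : ∃ A, A = C2 / b := ⟨_, rfl⟩
  have hA0 : 0 < A := by rw [hA]; positivity
  obtain ⟨Q₀, hQ0, hQ₀⟩ : ∃ Q₀ : ℝ, 0 < Q₀ ∧ A * Q₀ ^ b = 1 := by
    refine ⟨(A⁻¹) ^ b⁻¹, by positivity, ?_⟩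
    rw [← Real.rpow_mul (by positivity), inv_mul_cancel₀ hb0.ne', Real.rpow_one,
      mul_inv_cancel₀ hA0.ne']
  obtain ⟨R, hR, hR2⟩ : ∃ R : ℝ, 0 < R ∧ (K ^ 2 + 1) * R ^ 2 ≤ Q₀ := by
    refine ⟨Real.sqrt (Q₀ / (K ^ 2 + 1)), by positivity, ?_⟩
    rw [Real.sq_sqrt (by positivity)]
    field_simp
    exact le_rfl
  refine ⟨R, A, b, 2 / (4 * K ^ 2 + 1) ^ 2, hR, hA0.le, hb0.le, hb1, by positivity, ?_⟩
  intro c J hJ hK x T hx hT r hr hrR u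
  have hs : 0 < r ^ 2 := by positivity
  have hrR' : r ^ 2 ≤ R ^ 2 := pow_le_pow_left₀ hr.le (by linarith) 2
  obtain ⟨h, hh⟩ : ∃ h : E d → ℝ, h = gp A b J c r := ⟨_, rfl⟩
  have hsm : ContDiff ℝ ∞ h := by
    rw [hh]
    exact gp_smooth A b J c hr
  have hq : 0 ≤ N J (x - c) := (sq_nonneg ‖x - c‖).trans (N_ge J (x - c))
  have hfdx : fderiv ℝ h x = G' A b (N J (x - c) + r ^ 2) •
      fderiv ℝ (fun x => N J (x - c)) x := by
    rw [hh]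
    exact gp_fderiv A b J c hr x
  have hhx : h x = G A b (N J (x - c) + r ^ 2) := by
    rw [hh]
    rfl
  have hfu : ∀ u, fderiv ℝ h x u = G' A b (N J (x - c) + r ^ 2) * (2 * BB J (x - c) u) := by
    intro u
    rw [hfdx]
    change G' A b (N J (x - c) + r ^ 2) * fderiv ℝ (fun x => N J (x - c)) x u = _
    rw [N_fderiv]
  have hGx : 0 < G A b (N J (x - c) + r ^ 2) := G_pos hA0.le (by positivity)
  have hgr : ‖fderiv ℝ h x‖ * ‖x - c‖ ≤ 2 * K ^ 2 * h x := by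
    rw [hh]
    exact gp_grad hA0.le hb0.le hb1 hK c hr x
  have hP := P_ge (b := b) hA0.le hb1 hq hs
  have hG'x : G' A b (N J (x - c) + r ^ 2) ≤ 0 := G'_neg hA0.le hb1 (by positivity)
  have hQ : A * (N J (x - c) + r ^ 2) ^ b ≤ 1 := by
    rw [← hQ₀]
    refine mul_le_mul_of_nonneg_left (Real.rpow_le_rpow (by positivity) ?_ hb0.le) hA0.le
    refine le_trans ?_ hR2
    have h1 := N_leK hK (x - c)
    have h2 : ‖x - c‖ ^ 2 ≤ R ^ 2 := pow_le_pow_left₀ (norm_nonneg _) hx.le 2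
    have h3 := mul_le_mul_of_nonneg_left h2 (sq_nonneg K)
    linarith
  have hE := err_le hb0 hq hs hQ hA0.le
  have hinv : ‖x - c‖ ≤ 2 * r →
      2 / (4 * K ^ 2 + 1) ^ 2 / r ^ 2 ≤ 2 * (r ^ 2 * ((N J (x - c) + r ^ 2)⁻¹ *
        (N J (x - c) + r ^ 2)⁻¹)) := by
    intro hx2
    have h1 : N J (x - c) + r ^ 2 ≤ (4 * K ^ 2 + 1) * r ^ 2 := by
      have h2 := N_leK hK (x - c)
      have h3 : ‖x - c‖ ^ 2 ≤ (2 * r) ^ 2 := pow_le_pow_left₀ (norm_nonneg _) hx2 2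
      have h4 := mul_le_mul_of_nonneg_left h3 (sq_nonneg K)
      nlinarith
    have h5 : 0 < N J (x - c) + r ^ 2 := by positivity
    have h6 : ((4 * K ^ 2 + 1) * r ^ 2)⁻¹ ≤ (N J (x - c) + r ^ 2)⁻¹ := inv_anti₀ h5 h1
    have h7 : ((4 * K ^ 2 + 1) * r ^ 2)⁻¹ * ((4 * K ^ 2 + 1) * r ^ 2)⁻¹ ≤
        (N J (x - c) + r ^ 2)⁻¹ * (N J (x - c) + r ^ 2)⁻¹ :=
      mul_le_mul h6 h6 (by positivity) (by positivity)
    have h8 := mul_le_mul_of_nonneg_left h7 (by positivity : 0 ≤ 2 * r ^ 2)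
    calc 2 / (4 * K ^ 2 + 1) ^ 2 / r ^ 2 =
        2 * r ^ 2 * (((4 * K ^ 2 + 1) * r ^ 2)⁻¹ * ((4 * K ^ 2 + 1) * r ^ 2)⁻¹) := by
          field_simp
      _ ≤ _ := h8
      _ = _ := by ring
  have hX0 : 0 ≤ (N J (x - c) + r ^ 2)⁻¹ * (N J (x - c) + r ^ 2)⁻¹ := by positivity
  rw [← hh]
  generalize hg1 : G A b (N J (x - c) + r ^ 2) = g at *
  generalize hg2 : G' A b (N J (x - c) + r ^ 2) = g' at *
  generalize hg3 : (N J (x - c) + r ^ 2)⁻¹ * (N J (x - c) + r ^ 2)⁻¹ = X at *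
  generalize hg4 : (N J (x - c) + r ^ 2) ^ (b - 1) = Y at *
  have hY0 : 0 < Y := by rw [← hg4]; positivity
  -- the value for `J`
  have main : 2 * (r ^ 2 * X + A * b * Y) * ‖u‖ ^ 2 ≤ tau J c h x ![u, J u] := by
    have e1 : tau J c h x ![u, J u] =
        2 * g' * (BB J (x - c) u ^ 2 + W J (x - c) u ^ 2) + 2 * g * N J u := by
      rw [tau_apply hsm, hfu, hfu, W_J hJ, BB_J hJ, W_self hJ, hhx]
      ring
    rw [e1]
    have h1 := bessel hJ (x - c) u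
    have h2 : g' * (N J (x - c) * N J u) ≤ g' * (BB J (x - c) u ^ 2 + W J (x - c) u ^ 2) :=
      mul_le_mul_of_nonpos_left h1 hG'x
    have h3 : (r ^ 2 * X + A * b * Y) * N J u ≤ (g' * N J (x - c) + g) * N J u :=
      mul_le_mul_of_nonneg_right hP ((sq_nonneg ‖u‖).trans (N_ge J u))
    have h4 : (r ^ 2 * X + A * b * Y) * ‖u‖ ^ 2 ≤ (r ^ 2 * X + A * b * Y) * N J u :=
      mul_le_mul_of_nonneg_left (N_ge J u) (by positivity)
    nlinarith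
  -- the error
  have err : |tau J c h x ![u, (T - J) u]| ≤ 2 * (A * b * Y) * ‖u‖ ^ 2 := by
    have h1 := tau_boundK (J := J) (c := c) hsm hK x u ((T - J) u)
    rw [hhx, abs_of_pos hGx] at h1
    have h2 : ‖fderiv ℝ h x‖ * ‖x - c‖ ≤ 2 * K ^ 2 * g := by
      rw [← hhx]
      exact hgr
    have h6 : ‖(T - J) u‖ ≤ (L + 1) * N J (x - c) ^ b * ‖u‖ := by
      refine ((T - J).le_opNorm u).trans (mul_le_mul_of_nonneg_right ?_ (norm_nonneg _))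
      refine hT.trans ?_
      have h7 : ‖x - c‖ ^ a ≤ N J (x - c) ^ b := by
        have h8 : ‖x - c‖ ^ a = (‖x - c‖ ^ 2) ^ b := by
          rw [← Real.rpow_natCast, ← Real.rpow_mul (norm_nonneg _)]
          congr 1
          rw [hb]
          push_cast
          ring
        rw [h8]
        exact Real.rpow_le_rpow (sq_nonneg _) (N_ge J _) hb0.le
      have h9 : 0 ≤ ‖x - c‖ ^ a := by positivity
      have h10 : 0 ≤ N J (x - c) ^ b := by positivity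
      calc L * ‖x - c‖ ^ a ≤ L * N J (x - c) ^ b := by gcongr
        _ ≤ (L + 1) * N J (x - c) ^ b := by gcongr; linarith
    have h11 : 4 * K * (‖fderiv ℝ h x‖ * ‖x - c‖ + g) ≤ 12 * K ^ 3 * g := by
      have h12 : 4 * K * (‖fderiv ℝ h x‖ * ‖x - c‖ + g) ≤ 4 * K * (2 * K ^ 2 * g + g) := by
        gcongr
      have h13 : K ≤ K ^ 3 := by
        have : K * 1 ≤ K * K ^ 2 := mul_le_mul_of_nonneg_left (one_le_pow₀ hK1) (by linarith)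
        calc K = K * 1 := by ring
          _ ≤ K * K ^ 2 := this
          _ = K ^ 3 := by ring
      have h14 := mul_le_mul_of_nonneg_right h13 hGx.le
      calc _ ≤ 4 * K * (2 * K ^ 2 * g + g) := h12
        _ = 8 * K ^ 3 * g + 4 * (K * g) := by ring
        _ ≤ 8 * K ^ 3 * g + 4 * (K ^ 3 * g) := by linarith
        _ = _ := by ring
    have h15 : ‖u‖ * ‖(T - J) u‖ ≤ (L + 1) * N J (x - c) ^ b * ‖u‖ ^ 2 := by
      calc ‖u‖ * ‖(T - J) u‖ ≤ ‖u‖ * ((L + 1) * N J (x - c) ^ b * ‖u‖) := by gcongr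
        _ = _ := by ring
    have h16 : 4 * K * (‖fderiv ℝ h x‖ * ‖x - c‖ + g) * (‖u‖ * ‖(T - J) u‖) ≤
        12 * K ^ 3 * g * ((L + 1) * N J (x - c) ^ b * ‖u‖ ^ 2) :=
      mul_le_mul h11 h15 (by positivity) (by positivity)
    have h17 : A * b = C2 := by rw [hA, div_mul_cancel₀ _ hb0.ne']
    refine h1.trans (h16.trans ?_)
    have h18 : 12 * K ^ 3 * g * ((L + 1) * N J (x - c) ^ b * ‖u‖ ^ 2) =
        C2 * (g * N J (x - c) ^ b) * ‖u‖ ^ 2 := by rw [hC2]; ring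
    rw [h18, h17]
    calc C2 * (g * N J (x - c) ^ b) * ‖u‖ ^ 2 ≤ C2 * (2 * Y) * ‖u‖ ^ 2 := by gcongr
      _ = _ := by ring
  have hsum : tau J c h x ![u, T u] = tau J c h x ![u, J u] + tau J c h x ![u, (T - J) u] := by
    rw [← lR_apply, ← lR_apply, ← lR_apply, ← map_add]
    congr 1
    change T u = J u + (T u - J u)
    abel
  have h19 := (abs_le.1 err).1
  have h20 : 2 * (r ^ 2 * X + A * b * Y) * ‖u‖ ^ 2 =
    2 * (r ^ 2 * X) * ‖u‖ ^ 2 + 2 * (A * b * Y) * ‖u‖ ^ 2 := by ring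
  have key : 2 * (r ^ 2 * X) * ‖u‖ ^ 2 ≤ tau J c h x ![u, T u] := by
    rw [hsum]
    linarith
  refine ⟨le_trans (by positivity) key, fun hx2 => le_trans ?_ key⟩
  exact mul_le_mul_of_nonneg_right (hinv hx2) (sq_nonneg _)

end Pool.Agent.Q235.SZ
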