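import Pool.Agent.Q235.SR.H1
import Pool.Agent.Q235.SQ.LocL
import Pool.Agent.Y949.SY.Patch2

/-!
# Filling in sets of zero length: one step on a manifold
-/

set_option autoImplicit false

open Set Filter Topology MeasureTheory
open scoped Manifold ContDiff Pointwise

noncomputable section

namespace Pool.Agent.Q235.SZ

open Pool.Agent.Y501.SY Pool.Agent.Y455.SY

section

variable {d : ℕ} {X : Type} [TopologicalSpace X] [ChartedSpace (E d) X]

/-- `β` is a primitive of `σ` on the complement of `K` in `N` -/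
def IsPrim (β : Form d X 1) (σ : Form d X 2) (K N : Set X) : Prop :=
  ∀ (U : Set (E d)) (φ : E d → X), IsOpen U → ContMDiffOn (𝓡 d) (𝓡 d) ∞ φ U →
    (∀ p ∈ U, φ p ∈ N ∧ φ p ∉ K) →
    ContDiffOn ℝ ∞ (pb φ β) U ∧ ∀ p ∈ U, extDeriv (pb φ β) p = pb φ σ p

/-- near `z` the form `σ` has a primitive off `K` which is bounded, or which is `o(dist⁻¹)` if `z`
is isolated in `K` -/
def PrimAt (σ : Form d X 2) (K : Set X) (z : X) : Prop :=
  ∃ (β : Form d X 1) (N : Set X), N ∈ 𝓝 z ∧ IsPrim β σ K N ∧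
    ((∃ B : ℝ, ∀ᶠ p in 𝓝 (chartAt (E d) z z), (chartAt (E d) z).symm p ∉ K →
        ‖pb (chartAt (E d) z).symm β p‖ ≤ B) ∨
      ((∀ᶠ x in 𝓝 z, x ∈ K → x = z) ∧ ∀ e : ℝ, 0 < e → ∀ᶠ p in 𝓝 (chartAt (E d) z z),
        (chartAt (E d) z).symm p ∉ K →
          ‖p - chartAt (E d) z z‖ * ‖pb (chartAt (E d) z).symm β p‖ ≤ e))

/-- `J` is Hölder continuous near `x` in the chart at `x`. -/
def HolNear (J : End d X) (x : X) : Prop :=
  ∃ a L r : ℝ, 0 < a ∧ 0 < r ∧ ∀ p ∈ Metric.ball (chartAt (E d) x x) r,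
    ∀ q ∈ Metric.ball (chartAt (E d) x x) r, ∀ v : E d,
      ‖inChart J x p v - inChart J x q v‖ ≤ L * ‖p - q‖ ^ a * ‖v‖

/-- the form `w` is closed and taming off `K'` and equal to `σ` near `K'` -/
structure Ok (J : End d X) (σ : Form d X 2) (K K' : Set X) (w : Form d X 2) : Prop where
  cl : IsClosed K'
  sub : K' ⊆ K
  smooth : SmoothOff w K'
  closed : IsDOff w 0 K'
  tames : ∀ x, x ∉ K' → TamesAt w J x
  near : ∃ G, IsOpen G ∧ G ∩ K = K' ∧ ∀ x ∈ G, x ∉ K → w x = σ x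

variable [IsManifold (𝓡 d) ∞ X]

theorem rstep [T2Space X] {J : End d X} (hJ : IsAlmostComplex J) {σ : Form d X 2} {K U : Set X}
    (hK : IsCompact K) (hU : IsOpen U) (hKU : K ⊆ U)
    (hH : ∀ x₀ : X, μH[1] (chartAt (E d) x₀ '' (K ∩ (chartAt (E d) x₀).source)) = 0)
    {z : X} (hol : HolNear J z) (hprim : PrimAt σ K z) :
    ∃ W, IsOpen W ∧ z ∈ W ∧ ∀ (K' : Set X) (w : Form d X 2), Ok J σ K K' w →
      ∃ w' : Form d X 2, Ok J σ K (K' \ W) w' ∧ ∀ x, x ∉ U → w' x = w x := by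
  obtain ⟨β, N, hN, hβ, hbd⟩ := hprim
  obtain ⟨a₀, L₀, r₁, ha₀, hr₁, hol⟩ := hol
  obtain ⟨p₀, hp₀⟩ : ∃ p₀, p₀ = chartAt (E d) z z := ⟨_, rfl⟩
  rw [← hp₀] at hol hbd
  have hp₀t : p₀ ∈ (chartAt (E d) z).target := by rw [hp₀]; exact mem_chart_target (E d) z
  have hp₀s : (chartAt (E d) z).symm p₀ = z := by
    rw [hp₀]; exact (chartAt (E d) z).left_inv (mem_chart_source (E d) z)
  -- the big ball
  obtain ⟨r₂, hr₂, hr₂1, hr₂2, hball⟩ : ∃ r₂ : ℝ, 0 < r₂ ∧ r₂ ≤ r₁ ∧ r₂ ≤ 1 / 2 ∧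
      ∀ p ∈ Metric.closedBall p₀ r₂, p ∈ (chartAt (E d) z).target ∧
        (chartAt (E d) z).symm p ∈ N := by
    have h1 : ContinuousAt (chartAt (E d) z).symm p₀ :=
      (chartAt (E d) z).continuousAt_symm hp₀t
    have h3 : ∀ᶠ x in 𝓝 ((chartAt (E d) z).symm p₀), x ∈ N := by
      rw [hp₀s]
      exact hN
    have h4 := h1.eventually h3
    have h5 : ∀ᶠ p in 𝓝 p₀, p ∈ (chartAt (E d) z).target :=
      (chartAt (E d) z).open_target.mem_nhds hp₀t
    obtain ⟨r, hr, h6⟩ := Metric.nhds_basis_closedBall.mem_iff.1 (h5.and h4)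
    refine ⟨min r (min r₁ (1 / 2)), by positivity, (min_le_right _ _).trans (min_le_left _ _),
      (min_le_right _ _).trans (min_le_right _ _), fun p hp => ?_⟩
    exact h6 (Metric.closedBall_subset_closedBall (min_le_left _ _) hp)
  have hbt : Metric.closedBall p₀ r₂ ⊆ (chartAt (E d) z).target := fun p hp => (hball p hp).1
  obtain ⟨a, ha, ha1, haa⟩ : ∃ a : ℝ, 0 < a ∧ a ≤ 1 ∧ a ≤ a₀ :=
    ⟨min a₀ 1, by positivity, min_le_right _ _, min_le_left _ _⟩
  obtain ⟨⟨CJ, hCJ, hq⟩, -⟩ := Pool.Agent.Y44.SY.t_QB d X J hJ 0 IsSmooth.zero z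
    (Metric.closedBall p₀ r₂) (isCompact_closedBall _ _) hbt
  obtain ⟨R, hR, hlp⟩ := lp (d := d) (K := 1 + CJ) (L := |L₀|) (a := a) (by linarith)
    (abs_nonneg _) ha ha1
  -- the bounds of `β`
  obtain ⟨βc, hβc⟩ : ∃ βc, βc = pb (chartAt (E d) z).symm β := ⟨_, rfl⟩
  rw [← hβc] at hbd
  obtain ⟨r₃, hr₃, hcovz⟩ : ∃ r₃ : ℝ, 0 < r₃ ∧ ∀ (Ω k : Set (E d)), IsCompact k →
      μH[1] k = 0 → Ω ⊆ Metric.ball p₀ r₃ → k ⊆ Ω →
      (∀ p ∈ k, (chartAt (E d) z).symm p ∈ K) →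
      (∀ p ∈ Ω \ k, (chartAt (E d) z).symm p ∉ K) → Cov Ω k βc := by
    rcases hbd with ⟨B, hB⟩ | ⟨hiso, he⟩
    · obtain ⟨r, hr, h⟩ := Metric.eventually_nhds_iff_ball.1 hB
      refine ⟨r, hr, fun Ω k hk h0 hΩ _ _ hΩK => cov_bdd hk h0 (B := B) fun p hp => ?_⟩
      exact h p (hΩ hp.1) (hΩK p hp)
    · have h1 : ∀ᶠ p in 𝓝 p₀, (chartAt (E d) z).symm p ∈ K → (chartAt (E d) z).symm p = z := by
        have h1 : ContinuousAt (chartAt (E d) z).symm p₀ :=
          (chartAt (E d) z).continuousAt_symm hp₀t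
        have h2 : ∀ᶠ x in 𝓝 ((chartAt (E d) z).symm p₀), x ∈ K → x = z := by
          rw [hp₀s]
          exact hiso
        exact h1.eventually h2
      obtain ⟨r, hr, h⟩ := Metric.eventually_nhds_iff_ball.1
        (h1.and ((chartAt (E d) z).open_target.mem_nhds hp₀t))
      refine ⟨r, hr, fun Ω k hk h0 hΩ hkΩ hkK hΩK => cov_pt (c := p₀) ?_ ?_⟩
      · intro p hp
        have h2 := (h p (hΩ (hkΩ hp))).1 (hkK p hp)
        have h3 : p ∈ (chartAt (E d) z).target := (h p (hΩ (hkΩ hp))).2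
        have h4 := (chartAt (E d) z).right_inv h3
        rw [h2, ← hp₀] at h4
        exact h4.symm
      · intro e he'
        obtain ⟨ρ, hρ, h2⟩ := Metric.eventually_nhds_iff_ball.1 (he e he')
        refine ⟨ρ, hρ, fun p hp hpρ => h2 p ?_ (hΩK p hp)⟩
        rw [Metric.mem_ball, dist_eq_norm]
        exact hpρ
  -- the radius
  obtain ⟨ρ, hρ, hρ1, hfree⟩ := sphere_free (hH z) p₀ (ρ₀ := min r₂ (min (R / 2) r₃))
    (by positivity)
  have hρ2 : ρ < r₂ := hρ1.trans_le (min_le_left _ _)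
  have hρR : ρ < R / 2 := hρ1.trans_le ((min_le_right _ _).trans (min_le_left _ _))
  have hρ3 : ρ < r₃ := hρ1.trans_le ((min_le_right _ _).trans (min_le_right _ _))
  have hcb : Metric.closedBall p₀ ρ ⊆ Metric.closedBall p₀ r₂ :=
    Metric.closedBall_subset_closedBall hρ2.le
  have hbb : Metric.ball p₀ ρ ⊆ Metric.closedBall p₀ r₂ :=
    Metric.ball_subset_closedBall.trans hcb
  have hfree' : ∀ x ∈ K, ∀ p ∈ Metric.closedBall p₀ ρ, (chartAt (E d) z).symm p = x →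
      p ∈ Metric.ball p₀ ρ := by
    intro x hx p hp hpx
    have hpt : p ∈ (chartAt (E d) z).target := hbt (hcb hp)
    have h1 : ‖p - p₀‖ ≠ ρ := by
      refine hfree p ⟨x, ⟨hx, ?_⟩, ?_⟩
      · rw [← hpx]
        exact (chartAt (E d) z).map_target hpt
      · rw [← hpx]
        exact (chartAt (E d) z).right_inv hpt
    rw [Metric.mem_closedBall, dist_eq_norm] at hp
    rw [Metric.mem_ball, dist_eq_norm]
    exact lt_of_le_of_ne hp h1
  obtain ⟨W, hWd⟩ : ∃ W, W = (chartAt (E d) z).source ∩ chartAt (E d) z ⁻¹' Metric.ball p₀ ρ :=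
    ⟨_, rfl⟩
  have hWo : IsOpen W := by
    rw [hWd]
    exact (chartAt (E d) z).isOpen_inter_preimage Metric.isOpen_ball
  obtain ⟨C, hCd⟩ : ∃ C, C = (chartAt (E d) z).symm '' Metric.closedBall p₀ ρ := ⟨_, rfl⟩
  have hCc : IsCompact C := by
    rw [hCd]
    exact (isCompact_closedBall _ _).image_of_continuousOn
      ((chartAt (E d) z).continuousOn_symm.mono (hcb.trans hbt))
  have hWC : W ⊆ C := by
    intro x hx
    rw [hWd] at hx
    rw [hCd]
    exact ⟨_, Metric.ball_subset_closedBall hx.2, (chartAt (E d) z).left_inv hx.1⟩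
  have hKC : ∀ x ∈ K, x ∈ C → x ∈ W := by
    intro x hx hxC
    rw [hCd] at hxC
    obtain ⟨p, hp, hpx⟩ := hxC
    have h1 := hfree' x hx p hp hpx
    rw [hWd]
    have hpt : p ∈ (chartAt (E d) z).target := hbt (hcb hp)
    refine ⟨?_, ?_⟩
    · rw [← hpx]
      exact (chartAt (E d) z).map_target hpt
    · rw [mem_preimage, ← hpx, (chartAt (E d) z).right_inv hpt]
      exact h1
  refine ⟨W, hWo, ?_, ?_⟩
  · rw [hWd]
    refine ⟨mem_chart_source (E d) z, ?_⟩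
    rw [mem_preimage, ← hp₀]
    exact Metric.mem_ball_self hρ
  intro K' w hw
  obtain ⟨G, hG, hGK, hGw⟩ := hw.near
  have hK'K := hw.sub
  have hcl' : IsClosed (K' \ W) := hw.cl.sdiff hWo
  -- the local data
  obtain ⟨k, hkd⟩ : ∃ k, k = chartAt (E d) z '' (K' ∩ W) := ⟨_, rfl⟩
  have hKW : K' ∩ W = K' ∩ C := by
    apply Subset.antisymm
    · exact inter_subset_inter_right _ hWC
    · exact fun x hx => ⟨hx.1, hKC x (hK'K hx.1) hx.2⟩
  have hKWc : IsCompact (K' ∩ W) := by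
    rw [hKW]
    exact hCc.inter_left hw.cl
  have hWs : W ⊆ (chartAt (E d) z).source := by rw [hWd]; exact inter_subset_left
  have hkc : IsCompact k := by
    rw [hkd]
    exact hKWc.image_of_continuousOn
      ((chartAt (E d) z).continuousOn.mono (inter_subset_right.trans hWs))
  obtain ⟨Ω, hΩd⟩ : ∃ Ω, Ω = Metric.ball p₀ ρ ∩ (chartAt (E d) z).symm ⁻¹' (G ∩ U) := ⟨_, rfl⟩
  have hΩo : IsOpen Ω := by
    have h1 : IsOpen ((chartAt (E d) z).target ∩ (chartAt (E d) z).symm ⁻¹' (G ∩ U)) :=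
      (chartAt (E d) z).isOpen_inter_preimage_symm (hG.inter hU)
    have h2 : Ω = Metric.ball p₀ ρ ∩ ((chartAt (E d) z).target ∩
        (chartAt (E d) z).symm ⁻¹' (G ∩ U)) := by
      rw [hΩd, ← inter_assoc, inter_eq_left.2 (hbb.trans hbt)]
    rw [h2]
    exact Metric.isOpen_ball.inter h1
  have hΩb : Ω ⊆ Metric.ball p₀ ρ := by rw [hΩd]; exact inter_subset_left
  have hΩt : Ω ⊆ (chartAt (E d) z).target := hΩb.trans (hbb.trans hbt)
  have hΩG : ∀ p ∈ Ω, (chartAt (E d) z).symm p ∈ G ∧ (chartAt (E d) z).symm p ∈ U := by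
    intro p hp
    rw [hΩd] at hp
    exact hp.2
  have hΩW : ∀ p ∈ Ω, (chartAt (E d) z).symm p ∈ W := by
    intro p hp
    rw [hWd]
    refine ⟨(chartAt (E d) z).map_target (hΩt hp), ?_⟩
    rw [mem_preimage, (chartAt (E d) z).right_inv (hΩt hp)]
    exact hΩb hp
  have hkΩ : k ⊆ Ω := by
    rw [hkd]
    rintro _ ⟨x, hx, rfl⟩
    have hx1 : x ∈ G ∩ K := by rw [hGK]; exact hx.1
    have hx2 := hx.2
    rw [hWd] at hx2
    rw [hΩd]
    refine ⟨hx2.2, ?_⟩
    rw [mem_preimage, (chartAt (E d) z).left_inv hx2.1]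
    exact ⟨hx1.1, hKU hx1.2⟩
  have hkK' : ∀ p ∈ k, (chartAt (E d) z).symm p ∈ K' := by
    rw [hkd]
    rintro _ ⟨x, hx, rfl⟩
    rw [(chartAt (E d) z).left_inv (hWs hx.2)]
    exact hx.1
  have hΩK : ∀ p ∈ Ω \ k, (chartAt (E d) z).symm p ∉ K := by
    intro p hp hpK
    apply hp.2
    have h1 : (chartAt (E d) z).symm p ∈ K' := by
      rw [← hGK]
      exact ⟨(hΩG p hp.1).1, hpK⟩
    rw [hkd]
    exact ⟨_, ⟨h1, hΩW p hp.1⟩, (chartAt (E d) z).right_inv (hΩt hp.1)⟩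
  have hk0 : μH[1] k = 0 := by
    refine measure_mono_null ?_ (hH z)
    rw [hkd]
    exact image_mono fun x hx => ⟨hK'K hx.1, hWs hx.2⟩
  have hΩko : IsOpen (Ω \ k) := hΩo.sdiff hkc.isClosed
  have hsymm : ContMDiffOn (𝓡 d) (𝓡 d) ∞ (chartAt (E d) z).symm (Ω \ k) :=
    (contMDiffOn_chart_symm (n := ∞)).mono (sdiff_subset.trans hΩt)
  obtain ⟨hβs, hβd⟩ := hβ (Ω \ k) (chartAt (E d) z).symm hΩko hsymm fun p hp =>
    ⟨(hball p (hbb (hΩb hp.1))).2, hΩK p hp⟩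
  rw [← hβc] at hβs hβd
  have hww : ∀ p ∈ Ω \ k, pb (chartAt (E d) z).symm σ p = pb (chartAt (E d) z).symm w p := by
    intro p hp
    unfold pb
    rw [hGw _ (hΩG p hp.1).1 (hΩK p hp)]
  have hext : ∀ p ∈ Ω \ k, extDeriv βc p = pb (chartAt (E d) z).symm w p := fun p hp => by
    rw [hβd p hp, hww p hp]
  obtain ⟨s', Q, hQc, hQΩ, hkQ, g1, g2, g3, g4⟩ := hlp Ω k βc (inChart J z) hΩo hkc hkΩ
    (by
      intro p hp q hq
      have h1 := hΩb hp
      have h2 := hΩb hq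
      rw [Metric.mem_ball, dist_eq_norm] at h1 h2
      have h3 := norm_sub_le_norm_sub_add_norm_sub p p₀ q
      rw [norm_sub_rev p₀ q] at h3
      linarith)
    hβs ((hJ.cont z).mono hΩt) (fun p hp v => inChart_sq hJ z (hΩt hp) v)
    (fun p hp => by
      have := (hq p (hbb (hΩb hp))).2.1
      linarith)
    (by
      intro p hp q hq
      refine ContinuousLinearMap.opNorm_le_bound _ (by positivity) fun v => ?_
      have h1 := hol p (Metric.ball_subset_ball (hρ2.le.trans hr₂1) (hΩb hp)) q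
        (Metric.ball_subset_ball (hρ2.le.trans hr₂1) (hΩb hq)) v
      refine h1.trans (mul_le_mul_of_nonneg_right ?_ (norm_nonneg _))
      have h2 : ‖p - q‖ ^ a₀ ≤ ‖p - q‖ ^ a := by
        rcases (norm_nonneg (p - q)).eq_or_lt with h0 | h0
        · rw [← h0, Real.zero_rpow ha₀.ne', Real.zero_rpow ha.ne']
        · refine Real.rpow_le_rpow_of_exponent_ge h0 ?_ haa
          have h1 := hΩb hp
          have h2 := hΩb hq
          rw [Metric.mem_ball, dist_eq_norm] at h1 h2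
          have h3 := norm_sub_le_norm_sub_add_norm_sub p p₀ q
          rw [norm_sub_rev p₀ q] at h3
          linarith
      have h3 : 0 ≤ ‖p - q‖ ^ a₀ := by positivity
      calc L₀ * ‖p - q‖ ^ a₀ ≤ |L₀| * ‖p - q‖ ^ a₀ := by gcongr; exact le_abs_self _
        _ ≤ |L₀| * ‖p - q‖ ^ a := by gcongr)
    (by
      intro p hp v hv
      rw [hext p hp]
      exact (tames_iff w J z (hΩt hp.1)).1
        (hw.tames _ fun h => hΩK p hp (hK'K h)) v hv)
    (hcovz Ω k hkc hk0 (hΩb.trans (Metric.ball_subset_ball hρ3.le)) hkΩ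
      (fun p hp => hK'K (hkK' p hp)) hΩK)
  -- the patch
  obtain ⟨O, hOd⟩ : ∃ O, O = (chartAt (E d) z).source ∩ chartAt (E d) z ⁻¹' Ω := ⟨_, rfl⟩
  have hOo : IsOpen O := by
    rw [hOd]
    exact (chartAt (E d) z).isOpen_inter_preimage hΩo
  have hOs : O ⊆ (chartAt (E d) z).source := by rw [hOd]; exact inter_subset_left
  have heO : chartAt (E d) z '' O = Ω := by
    apply Subset.antisymm
    · rintro _ ⟨x, hx, rfl⟩
      rw [hOd] at hx
      exact hx.2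
    · intro p hp
      refine ⟨(chartAt (E d) z).symm p, ?_, (chartAt (E d) z).right_inv (hΩt hp)⟩
      rw [hOd]
      refine ⟨(chartAt (E d) z).map_target (hΩt hp), ?_⟩
      rw [mem_preimage, (chartAt (E d) z).right_inv (hΩt hp)]
      exact hp
  have hOΩ : ∀ x ∈ O, chartAt (E d) z x ∈ Ω := by
    intro x hx
    rw [hOd] at hx
    exact hx.2
  have hOW : O ⊆ W := by
    intro x hx
    have h1 := hΩW _ (hOΩ x hx)
    rwa [(chartAt (E d) z).left_inv (hOs hx)] at h1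
  have hOU : O ⊆ U := by
    intro x hx
    have h1 := (hΩG _ (hOΩ x hx)).2
    rwa [(chartAt (E d) z).left_inv (hOs hx)] at h1
  have hdisj : (K' \ W) ∩ O = ∅ := by
    rw [eq_empty_iff_forall_notMem]
    rintro x ⟨h1, h2⟩
    exact h1.2 (hOW h2)
  have hset : (chartAt (E d) z '' O) \ (chartAt (E d) z '' ((K' \ W) ∩ O)) = Ω := by
    rw [hdisj, image_empty, sdiff_empty, heO]
  obtain ⟨f1, f2, f3, f4⟩ := Pool.Agent.Y949.SY.t_PATCH2 d X z O K' (K' \ W) Q s' w hOo hOs hcl'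
    sdiff_subset hQc (by rw [heO]; exact hQΩ)
    (by
      intro x hx hx2
      have hxW : x ∈ W := by
        by_contra h
        exact hx2 ⟨hx, h⟩
      have hxk : chartAt (E d) z x ∈ k := by
        rw [hkd]
        exact ⟨x, ⟨hx, hxW⟩, rfl⟩
      refine ⟨?_, hkQ hxk⟩
      rw [hOd]
      exact ⟨hWs hxW, hkΩ hxk⟩)
    (by rw [hset]; exact g1) (by rw [hset]; exact g2)
    (by
      intro p hp
      rw [heO] at hp
      rw [g3 p hp]
      exact hext p ⟨hp.1, fun h => hp.2 (hkQ h)⟩)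
    hw.smooth hw.closed
  have hxO : ∀ x ∈ K', x ∉ K' \ W → x ∈ O := by
    intro x hx hx2
    have hxW : x ∈ W := by
      by_contra h
      exact hx2 ⟨hx, h⟩
    have hxk : chartAt (E d) z x ∈ k := by
      rw [hkd]
      exact ⟨x, ⟨hx, hxW⟩, rfl⟩
    rw [hOd]
    exact ⟨hWs hxW, hkΩ hxk⟩
  have hout : ∀ x, x ∉ O → patch z O s' w x = w x := fun x hx => f3 x (Or.inl hx)
  refine ⟨patch z O s' w, ⟨hcl', sdiff_subset.trans hK'K, f1, f2, ?_, ?_⟩, fun x hx =>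
    hout x fun h => hx (hOU h)⟩
  · intro x hx
    by_cases hxO' : x ∈ O
    · have hpΩ := hOΩ x hxO'
      have h1 : x = (chartAt (E d) z).symm (chartAt (E d) z x) :=
        ((chartAt (E d) z).left_inv (hOs hxO')).symm
      rw [h1, tames_iff _ J z (hΩt hpΩ)]
      intro v hv
      unfold Pool.Agent.Y455.SY.Q
      rw [f4 _ (by rw [heO]; exact hpΩ)]
      exact g4 _ hpΩ v hv
    · have hxK' : x ∉ K' := fun h => hxO' (hxO x h hx)
      intro v hv
      rw [hout x hxO']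
      exact hw.tames x hxK' v hv
  · refine ⟨G ∩ Cᶜ, hG.inter hCc.isClosed.isOpen_compl, ?_, ?_⟩
    · apply Subset.antisymm
      · rintro x ⟨⟨h1, h2⟩, h3⟩
        refine ⟨?_, fun h => h2 (hWC h)⟩
        rw [← hGK]
        exact ⟨h1, h3⟩
      · rintro x ⟨h1, h2⟩
        have h3 : x ∈ G ∩ K := by rw [hGK]; exact h1
        exact ⟨⟨h3.1, fun h => h2 (hKC x h3.2 h)⟩, h3.2⟩
    · rintro x ⟨h1, h2⟩ hxK
      rw [hout x fun h => h2 (hWC (hOW h))]
      exact hGw x h1 hxK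

end

end Pool.Agent.Q235.SZ
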